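import Mathlib

/-!
# Quadratic forms attached to the real root of `t³ = t + 1`
-/

set_option autoImplicit false

namespace Pool.Agent.Q3.BestPhi

theorem psd (A0 B0 C0 A B C e g : ℝ) (hA : A0 ≤ A) (hB1 : B ≤ B0) (hB2 : -B0 ≤ B) (hC : C0 ≤ C)
    (hA0 : 0 < A0) (hC0 : 0 < C0) (h : B0 ^ 2 ≤ 4 * A0 * C0) : 0 ≤ A * e ^ 2 + B * (e * g) + C * g ^ 2 := by
  have h1 : B ^ 2 ≤ B0 ^ 2 := sq_le_sq' hB2 hB1
  have h2 : A0 * C0 ≤ A * C := mul_le_mul hA hC hC0.le (hA0.le.trans hA)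
  have h3 : 0 ≤ 4 * A * (A * e ^ 2 + B * (e * g) + C * g ^ 2) := by
    have h4 : 0 ≤ (4 * A * C - B ^ 2) * g ^ 2 := mul_nonneg (by linarith) (sq_nonneg g)
    nlinarith [sq_nonneg (2 * A * e + B * g)]
  have hA' : 0 < 4 * A := by linarith
  exact nonneg_of_mul_nonneg_right h3 hA'

section

variable {φ : ℝ} (h3 : φ ^ 3 = φ + 1)

include h3

theorem lo : 1.32471 < φ := by
  by_contra hcon
  push Not at hcon
  nlinarith [sq_nonneg (φ + 0.66), mul_nonneg (sub_nonneg.2 hcon) (sq_nonneg (φ + 0.66)),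
    sub_nonneg.2 hcon]

theorem hi : φ < 1.32472 := by
  by_contra hcon
  push Not at hcon
  nlinarith [sq_nonneg (φ + 0.66), mul_nonneg (sub_nonneg.2 hcon) (sq_nonneg (φ + 0.66)),
    sub_nonneg.2 hcon]

theorem sq_lo : 1.75485 < φ ^ 2 := by nlinarith [lo h3]

theorem sq_hi : φ ^ 2 < 1.75489 := by nlinarith [hi h3, lo h3]

theorem e5 (e g : ℝ) : 0 ≤ (1) * (2 * e - φ * g) ^ 2 + (1) * (e + (2 - φ ^ 2) * g) ^ 2 + (-1) * (g - φ * e) ^ 2 + (-1) * (-(φ ^ 2 - 1) * e) ^ 2 := by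
  have h1 := lo h3
  have h2 := hi h3
  have hφ2a := sq_lo h3
  have hφ2b := sq_hi h3
  have hA : (267461 / 100000 : ℝ) ≤ ((4) + (-1) * φ) := by linarith
  have hB1 : ((4) + (-2) * φ + (-2) * φ ^ 2) ≤ (215986 / 100000 : ℝ) := by linarith
  have hB2 : -(215986 / 100000 : ℝ) ≤ ((4) + (-2) * φ + (-2) * φ ^ 2) := by linarith
  have hC : (81429 / 100000 : ℝ) ≤ ((3) + (1) * φ + (-2) * φ ^ 2) := by linarith
  have h := psd (267461 / 100000 : ℝ) (215986 / 100000 : ℝ) (81429 / 100000 : ℝ) _ _ _ e g hA hB1 hB2 hC (by norm_num) (by norm_num) (by norm_num)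
  refine h.trans (le_of_eq ?_)
  linear_combination (-((1) * φ * g ^ 2 + (-1) * φ * e ^ 2)) * h3

theorem e7 (e g : ℝ) : 0 ≤ (1) * ((2 - φ) * e + g) ^ 2 + (1) * (2 * g - (φ ^ 2 - 1) * e) ^ 2 + (-1) * ((1 - φ) * (e + g)) ^ 2 + (-1) * (-(φ ^ 2 - 1) * (g + (1 - φ) * e)) ^ 2 := by
  have h1 := lo h3
  have h2 := hi h3
  have hφ2a := sq_lo h3
  have hφ2b := sq_hi h3
  have hA : (85954 / 100000 : ℝ) ≤ ((-2) * φ + (2) * φ ^ 2) := by linarith
  have hB1 : ((2) + (-2) * φ ^ 2) ≤ (151053 / 100000 : ℝ) := by linarith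
  have hB2 : -(151053 / 100000 : ℝ) ≤ ((2) + (-2) * φ ^ 2) := by linarith
  have hC : (432394 / 100000 : ℝ) ≤ ((3) + (1) * φ) := by linarith
  have h := psd (85954 / 100000 : ℝ) (151053 / 100000 : ℝ) (432394 / 100000 : ℝ) _ _ _ e g hA hB1 hB2 hC (by norm_num) (by norm_num) (by norm_num)
  refine h.trans (le_of_eq ?_)
  linear_combination (-((-2) * e * g + (-3) * e ^ 2 + (-1) * φ * g ^ 2 + (-2) * φ * e * g + (1) * φ * e ^ 2 + (2) * φ ^ 2 * e * g + (2) * φ ^ 2 * e ^ 2 + (-1) * φ ^ 3 * e ^ 2)) * h3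

theorem e11 (e g : ℝ) : 0 ≤ (1) * (2 * (g - φ * e) - e) ^ 2 + (1) * (-2 * (φ ^ 2 - 1) * e - g) ^ 2 + (-1) * (g - φ * e) ^ 2 + (-1) * (-(φ ^ 2 - 1) * e) ^ 2 := by
  have h1 := lo h3
  have h2 := hi h3
  have hφ2a := sq_lo h3
  have hφ2b := sq_hi h3
  have hA : (1327030 / 100000 : ℝ) ≤ ((4) + (7) * φ) := by linarith
  have hB1 : ((-8) + (-6) * φ + (4) * φ ^ 2) ≤ (893152 / 100000 : ℝ) := by linarith
  have hB2 : -(893152 / 100000 : ℝ) ≤ ((-8) + (-6) * φ + (4) * φ ^ 2) := by linarith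
  have hC : (399727 / 100000 : ℝ) ≤ ((4)) := by linarith
  have h := psd (1327030 / 100000 : ℝ) (893152 / 100000 : ℝ) (399727 / 100000 : ℝ) _ _ _ e g hA hB1 hB2 hC (by norm_num) (by norm_num) (by norm_num)
  refine h.trans (le_of_eq ?_)
  linear_combination (-((3) * φ * e ^ 2)) * h3

theorem s5a (e g : ℝ) : 0 ≤ (31 / 50) * (2 * e - φ * g) ^ 2 + (19 / 50) * (e + (2 - φ ^ 2) * g) ^ 2 + (-1) * (g - φ * e) ^ 2 := by
  have h1 := lo h3
  have h2 := hi h3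
  have hφ2a := sq_lo h3
  have hφ2b := sq_hi h3
  have hA : (110485 / 100000 : ℝ) ≤ ((143 / 50) + (-1) * φ ^ 2) := by linarith
  have hB1 : ((38 / 25) + (-12 / 25) * φ + (-19 / 25) * φ ^ 2) ≤ (44984 / 100000 : ℝ) := by linarith
  have hB2 : -(44984 / 100000 : ℝ) ≤ ((38 / 25) + (-12 / 25) * φ + (-19 / 25) * φ ^ 2) := by linarith
  have hC : (11058 / 100000 : ℝ) ≤ ((13 / 25) + (19 / 50) * φ + (-13 / 25) * φ ^ 2) := by linarith
  have h := psd (110485 / 100000 : ℝ) (44984 / 100000 : ℝ) (11058 / 100000 : ℝ) _ _ _ e g hA hB1 hB2 hC (by norm_num) (by norm_num) (by norm_num)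
  refine h.trans (le_of_eq ?_)
  linear_combination (-((19 / 50) * φ * g ^ 2)) * h3

theorem s5b (e g : ℝ) : 0 ≤ (31 / 50) * (2 * e - φ * g) ^ 2 + (19 / 50) * (e + (2 - φ ^ 2) * g) ^ 2 + (-1) * (-(φ ^ 2 - 1) * e) ^ 2 := by
  have h1 := lo h3
  have h2 := hi h3
  have hφ2a := sq_lo h3
  have hφ2b := sq_hi h3
  have hA : (228940 / 100000 : ℝ) ≤ ((93 / 50) + (-1) * φ + (1) * φ ^ 2) := by linarith
  have hB1 : ((38 / 25) + (-62 / 25) * φ + (-19 / 25) * φ ^ 2) ≤ (309976 / 100000 : ℝ) := by linarith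
  have hB2 : -(309976 / 100000 : ℝ) ≤ ((38 / 25) + (-62 / 25) * φ + (-19 / 25) * φ ^ 2) := by linarith
  have hC : (111010 / 100000 : ℝ) ≤ ((38 / 25) + (19 / 50) * φ + (-13 / 25) * φ ^ 2) := by linarith
  have h := psd (228940 / 100000 : ℝ) (309976 / 100000 : ℝ) (111010 / 100000 : ℝ) _ _ _ e g hA hB1 hB2 hC (by norm_num) (by norm_num) (by norm_num)
  refine h.trans (le_of_eq ?_)
  linear_combination (-((19 / 50) * φ * g ^ 2 + (-1) * φ * e ^ 2)) * h3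

theorem s7a (e g : ℝ) : 0 ≤ (1 / 2) * ((2 - φ) * e + g) ^ 2 + (1 / 2) * (2 * g - (φ ^ 2 - 1) * e) ^ 2 + (-1) * ((1 - φ) * (e + g)) ^ 2 := by
  have h1 := lo h3
  have h2 := hi h3
  have hφ2a := sq_lo h3
  have hφ2b := sq_hi h3
  have hA : (40699 / 100000 : ℝ) ≤ ((3 / 2) + (1 / 2) * φ + (-1) * φ ^ 2) := by linarith
  have hB1 : ((2) + (3) * φ + (-4) * φ ^ 2) ≤ (104585 / 100000 : ℝ) := by linarith
  have hB2 : -(104585 / 100000 : ℝ) ≤ ((2) + (3) * φ + (-4) * φ ^ 2) := by linarith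
  have hC : (239407 / 100000 : ℝ) ≤ ((3 / 2) + (2) * φ + (-1) * φ ^ 2) := by linarith
  have h := psd (40699 / 100000 : ℝ) (104585 / 100000 : ℝ) (239407 / 100000 : ℝ) _ _ _ e g hA hB1 hB2 hC (by norm_num) (by norm_num) (by norm_num)
  refine h.trans (le_of_eq ?_)
  linear_combination (-((1 / 2) * φ * e ^ 2)) * h3

theorem s7b (e g : ℝ) : 0 ≤ (1 / 2) * ((2 - φ) * e + g) ^ 2 + (1 / 2) * (2 * g - (φ ^ 2 - 1) * e) ^ 2 + (-1) * (-(φ ^ 2 - 1) * (g + (1 - φ) * e)) ^ 2 := by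
  have h1 := lo h3
  have h2 := hi h3
  have hφ2a := sq_lo h3
  have hφ2b := sq_hi h3
  have hA : (45245 / 100000 : ℝ) ≤ ((-3 / 2) + (-5 / 2) * φ + (3) * φ ^ 2) := by linarith
  have hB1 : ((-3) * φ + (2) * φ ^ 2) ≤ (46479 / 100000 : ℝ) := by linarith
  have hB2 : -(46479 / 100000 : ℝ) ≤ ((-3) * φ + (2) * φ ^ 2) := by linarith
  have hC : (192977 / 100000 : ℝ) ≤ ((3 / 2) + (-1) * φ + (1) * φ ^ 2) := by linarith
  have h := psd (45245 / 100000 : ℝ) (46479 / 100000 : ℝ) (192977 / 100000 : ℝ) _ _ _ e g hA hB1 hB2 hC (by norm_num) (by norm_num) (by norm_num)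
  refine h.trans (le_of_eq ?_)
  linear_combination (-((-2) * e * g + (-3) * e ^ 2 + (-1) * φ * g ^ 2 + (-2) * φ * e * g + (1 / 2) * φ * e ^ 2 + (2) * φ ^ 2 * e * g + (2) * φ ^ 2 * e ^ 2 + (-1) * φ ^ 3 * e ^ 2)) * h3

theorem s11a (e g : ℝ) : 0 ≤ (1 / 2) * (2 * (g - φ * e) - e) ^ 2 + (1 / 2) * (-2 * (φ ^ 2 - 1) * e - g) ^ 2 + (-1) * (g - φ * e) ^ 2 := by
  have h1 := lo h3
  have h2 := hi h3
  have hφ2a := sq_lo h3
  have hφ2b := sq_hi h3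
  have hA : (604282 / 100000 : ℝ) ≤ ((5 / 2) + (4) * φ + (-1) * φ ^ 2) := by linarith
  have hB1 : ((-4) + (-2) * φ + (2) * φ ^ 2) ≤ (314085 / 100000 : ℝ) := by linarith
  have hB2 : -(314085 / 100000 : ℝ) ≤ ((-4) + (-2) * φ + (2) * φ ^ 2) := by linarith
  have hC : (149883 / 100000 : ℝ) ≤ ((3 / 2)) := by linarith
  have h := psd (604282 / 100000 : ℝ) (314085 / 100000 : ℝ) (149883 / 100000 : ℝ) _ _ _ e g hA hB1 hB2 hC (by norm_num) (by norm_num) (by norm_num)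
  refine h.trans (le_of_eq ?_)
  linear_combination (-((2) * φ * e ^ 2)) * h3

theorem s11b (e g : ℝ) : 0 ≤ (1 / 2) * (2 * (g - φ * e) - e) ^ 2 + (1 / 2) * (-2 * (φ ^ 2 - 1) * e - g) ^ 2 + (-1) * (-(φ ^ 2 - 1) * e) ^ 2 := by
  have h1 := lo h3
  have h2 := hi h3
  have hφ2a := sq_lo h3
  have hφ2b := sq_hi h3
  have hA : (722737 / 100000 : ℝ) ≤ ((3 / 2) + (3) * φ + (1) * φ ^ 2) := by linarith
  have hB1 : ((-4) + (-4) * φ + (2) * φ ^ 2) ≤ (579077 / 100000 : ℝ) := by linarith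
  have hB2 : -(579077 / 100000 : ℝ) ≤ ((-4) + (-4) * φ + (2) * φ ^ 2) := by linarith
  have hC : (249834 / 100000 : ℝ) ≤ ((5 / 2)) := by linarith
  have h := psd (722737 / 100000 : ℝ) (579077 / 100000 : ℝ) (249834 / 100000 : ℝ) _ _ _ e g hA hB1 hB2 hC (by norm_num) (by norm_num) (by norm_num)
  refine h.trans (le_of_eq ?_)
  linear_combination (-((1) * φ * e ^ 2)) * h3

theorem eup (e g : ℝ) : 0 ≤ (99 / 20) * (g ^ 2 - φ * (e * g) + (φ ^ 2 - 1) * e ^ 2) + (-1) * e ^ 2 + (-1) * g ^ 2 := by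
  have h1 := lo h3
  have h2 := hi h3
  have hφ2a := sq_lo h3
  have hφ2b := sq_hi h3
  have hA : (273522 / 100000 : ℝ) ≤ ((-119 / 20) + (99 / 20) * φ ^ 2) := by linarith
  have hB1 : ((-99 / 20) * φ) ≤ (655878 / 100000 : ℝ) := by linarith
  have hB2 : -(655878 / 100000 : ℝ) ≤ ((-99 / 20) * φ) := by linarith
  have hC : (394857 / 100000 : ℝ) ≤ ((79 / 20)) := by linarith
  have h := psd (273522 / 100000 : ℝ) (655878 / 100000 : ℝ) (394857 / 100000 : ℝ) _ _ _ e g hA hB1 hB2 hC (by norm_num) (by norm_num) (by norm_num)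
  refine h.trans (le_of_eq ?_)
  linear_combination (-(0)) * h3

theorem elow (e g : ℝ) : 0 ≤ (-1) * (g ^ 2 - φ * (e * g) + (φ ^ 2 - 1) * e ^ 2) + (39 / 25) * e ^ 2 + (39 / 25) * g ^ 2 := by
  have h1 := lo h3
  have h2 := hi h3
  have hφ2a := sq_lo h3
  have hφ2b := sq_hi h3
  have hA : (80475 / 100000 : ℝ) ≤ ((64 / 25) + (-1) * φ ^ 2) := by linarith
  have hB1 : ((1) * φ) ≤ (132509 / 100000 : ℝ) := by linarith
  have hB2 : -(132509 / 100000 : ℝ) ≤ ((1) * φ) := by linarith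
  have hC : (55963 / 100000 : ℝ) ≤ ((14 / 25)) := by linarith
  have h := psd (80475 / 100000 : ℝ) (132509 / 100000 : ℝ) (55963 / 100000 : ℝ) _ _ _ e g hA hB1 hB2 hC (by norm_num) (by norm_num) (by norm_num)
  refine h.trans (le_of_eq ?_)
  linear_combination (-(0)) * h3

theorem sup1 (e g : ℝ) : 0 ≤ (317 / 100) * (g ^ 2 - φ * (e * g) + (φ ^ 2 - 1) * e ^ 2) + (-1) * e ^ 2 := by
  have h1 := lo h3
  have h2 := hi h3
  have hφ2a := sq_lo h3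
  have hφ2b := sq_hi h3
  have hA : (139198 / 100000 : ℝ) ≤ ((-417 / 100) + (317 / 100) * φ ^ 2) := by linarith
  have hB1 : ((-317 / 100) * φ) ≤ (420034 / 100000 : ℝ) := by linarith
  have hB2 : -(420034 / 100000 : ℝ) ≤ ((-317 / 100) * φ) := by linarith
  have hC : (316902 / 100000 : ℝ) ≤ ((317 / 100)) := by linarith
  have h := psd (139198 / 100000 : ℝ) (420034 / 100000 : ℝ) (316902 / 100000 : ℝ) _ _ _ e g hA hB1 hB2 hC (by norm_num) (by norm_num) (by norm_num)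
  refine h.trans (le_of_eq ?_)
  linear_combination (-(0)) * h3

theorem sup2 (e g : ℝ) : 0 ≤ (317 / 100) * (g ^ 2 - φ * (e * g) + (φ ^ 2 - 1) * e ^ 2) + (-1) * g ^ 2 := by
  have h1 := lo h3
  have h2 := hi h3
  have hφ2a := sq_lo h3
  have hφ2b := sq_hi h3
  have hA : (239198 / 100000 : ℝ) ≤ ((-317 / 100) + (317 / 100) * φ ^ 2) := by linarith
  have hB1 : ((-317 / 100) * φ) ≤ (420034 / 100000 : ℝ) := by linarith
  have hB2 : -(420034 / 100000 : ℝ) ≤ ((-317 / 100) * φ) := by linarith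
  have hC : (216902 / 100000 : ℝ) ≤ ((217 / 100)) := by linarith
  have h := psd (239198 / 100000 : ℝ) (420034 / 100000 : ℝ) (216902 / 100000 : ℝ) _ _ _ e g hA hB1 hB2 hC (by norm_num) (by norm_num) (by norm_num)
  refine h.trans (le_of_eq ?_)
  linear_combination (-(0)) * h3

theorem slow (e g : ℝ) : 0 ≤ (-1) * (g ^ 2 - φ * (e * g) + (φ ^ 2 - 1) * e ^ 2) + (71 / 50) * e ^ 2 + (333 / 200) * g ^ 2 := by
  have h1 := lo h3
  have h2 := hi h3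
  have hφ2a := sq_lo h3
  have hφ2b := sq_hi h3
  have hA : (66475 / 100000 : ℝ) ≤ ((121 / 50) + (-1) * φ ^ 2) := by linarith
  have hB1 : ((1) * φ) ≤ (132509 / 100000 : ℝ) := by linarith
  have hB2 : -(132509 / 100000 : ℝ) ≤ ((1) * φ) := by linarith
  have hC : (66463 / 100000 : ℝ) ≤ ((133 / 200)) := by linarith
  have h := psd (66475 / 100000 : ℝ) (132509 / 100000 : ℝ) (66463 / 100000 : ℝ) _ _ _ e g hA hB1 hB2 hC (by norm_num) (by norm_num) (by norm_num)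
  refine h.trans (le_of_eq ?_)
  linear_combination (-(0)) * h3

end

end Pool.Agent.Q3.BestPhi
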