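import Mathlib
import Pool.Agent.Q3.BestPhi.Forms

/-!
# Best approximations to `(φ, φ²)`, `φ³ = φ + 1`, are units
-/

set_option autoImplicit false

namespace Pool.Agent.Q3.BestPhi

/-- The quadratic factor of the norm form. -/
def Qf (φ e g : ℝ) : ℝ := g ^ 2 - φ * (e * g) + (φ ^ 2 - 1) * e ^ 2

/-- The norm form. -/
def NN (x a b : ℤ) : ℤ :=
  x ^ 3 + 2 * x ^ 2 * a + x * a ^ 2 - 3 * x * a * b - x * b ^ 2 + a ^ 3 - a ^ 2 * b + b ^ 3

/-- The linear factor of the norm form. -/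
noncomputable def ell (φ : ℝ) (x a b : ℤ) : ℝ := x + φ ^ 2 * a + φ * b

/-- The shifted Padovan sequence `0, 0, 1, 0, 1, 1, 1, 2, 2, 3, 4, 5, 7, …`. -/
def P : ℕ → ℤ
  | 0 => 0
  | 1 => 0
  | 2 => 1
  | n + 3 => P (n + 1) + P n

/-- The squared norms we consider. -/
structure GoodQ (φ : ℝ) (q : ℝ → ℝ → ℝ) (α β : ℝ) : Prop where
  alpha : 0 < α
  beta : 0 < β
  prod : α * β ≤ 9.78
  c5 : ∀ e g, q (g - φ * e) (-(φ ^ 2 - 1) * e) ≤ q (2 * e - φ * g) (e + (2 - φ ^ 2) * g)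
  c7 : ∀ e g, q ((1 - φ) * (e + g)) (-(φ ^ 2 - 1) * (g + (1 - φ) * e)) ≤
    q ((2 - φ) * e + g) (2 * g - (φ ^ 2 - 1) * e)
  c11 : ∀ e g, q (g - φ * e) (-(φ ^ 2 - 1) * e) ≤ q (2 * (g - φ * e) - e) (-2 * (φ ^ 2 - 1) * e - g)
  c8 : ∀ e g, q e g ≤ q (2 * e) (2 * g)
  up : ∀ e g, q e g ≤ β * Qf φ e g
  low : ∀ e g, Qf φ e g ≤ α * q e g
  same : ∀ e g, e * g ≤ 0 → q e g ≤ q (g - φ * e) (-(φ ^ 2 - 1) * e)
  neg : ∀ e g, q (-e) (-g) = q e g

theorem good_euc {φ : ℝ} (h3 : φ ^ 3 = φ + 1) : GoodQ φ (fun e g => e ^ 2 + g ^ 2) 1.56 4.95 where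
  alpha := by norm_num
  beta := by norm_num
  prod := by norm_num
  c5 e g := by have := e5 h3 e g; linarith
  c7 e g := by have := e7 h3 e g; linarith
  c11 e g := by have := e11 h3 e g; linarith
  c8 e g := by nlinarith [sq_nonneg e, sq_nonneg g]
  up e g := by have := eup h3 e g; simp only [Qf]; linarith
  low e g := by have := elow h3 e g; simp only [Qf]; linarith
  same e g h := by
    have h1 := lo h3
    nlinarith [sq_nonneg e, sq_nonneg g, mul_nonneg (show (0 : ℝ) ≤ φ by linarith) (neg_nonneg.2 h),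
      mul_nonneg (show (0 : ℝ) ≤ φ ^ 2 - 1 by nlinarith) (sq_nonneg e), sq_nonneg (-(φ ^ 2 - 1) * e)]
  neg e g := by ring

theorem good_sup {φ : ℝ} (h3 : φ ^ 3 = φ + 1) :
    GoodQ φ (fun e g => max (e ^ 2) (g ^ 2)) 3.085 3.17 where
  alpha := by norm_num
  beta := by norm_num
  prod := by norm_num
  c5 e g := by
    have h1 := s5a h3 e g
    have h2 := s5b h3 e g
    have m1 := le_max_left ((2 * e - φ * g) ^ 2) ((e + (2 - φ ^ 2) * g) ^ 2)
    have m2 := le_max_right ((2 * e - φ * g) ^ 2) ((e + (2 - φ ^ 2) * g) ^ 2)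
    exact max_le (by linarith) (by linarith)
  c7 e g := by
    have h1 := s7a h3 e g
    have h2 := s7b h3 e g
    have m1 := le_max_left (((2 - φ) * e + g) ^ 2) ((2 * g - (φ ^ 2 - 1) * e) ^ 2)
    have m2 := le_max_right (((2 - φ) * e + g) ^ 2) ((2 * g - (φ ^ 2 - 1) * e) ^ 2)
    exact max_le (by linarith) (by linarith)
  c11 e g := by
    have h1 := s11a h3 e g
    have h2 := s11b h3 e g
    have m1 := le_max_left ((2 * (g - φ * e) - e) ^ 2) ((-2 * (φ ^ 2 - 1) * e - g) ^ 2)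
    have m2 := le_max_right ((2 * (g - φ * e) - e) ^ 2) ((-2 * (φ ^ 2 - 1) * e - g) ^ 2)
    exact max_le (by linarith) (by linarith)
  c8 e g := by
    have m1 := le_max_left ((2 * e) ^ 2) ((2 * g) ^ 2)
    have m2 := le_max_right ((2 * e) ^ 2) ((2 * g) ^ 2)
    exact max_le (by nlinarith [sq_nonneg e]) (by nlinarith [sq_nonneg g])
  up e g := by
    have h1 := sup1 h3 e g
    have h2 := sup2 h3 e g
    exact max_le (by simp only [Qf]; linarith) (by simp only [Qf]; linarith)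
  low e g := by
    have h1 := slow h3 e g
    have m1 := le_max_left (e ^ 2) (g ^ 2)
    have m2 := le_max_right (e ^ 2) (g ^ 2)
    simp only [Qf]
    linarith
  same e g h := by
    have h1 := lo h3
    have h2 := sq_lo h3
    have m1 := le_max_left ((g - φ * e) ^ 2) ((-(φ ^ 2 - 1) * e) ^ 2)
    have h4 : 0 ≤ φ * -(e * g) := mul_nonneg (by linarith) (neg_nonneg.2 h)
    have h5 : 0 ≤ (φ ^ 2 - 1) * e ^ 2 := mul_nonneg (by linarith) (sq_nonneg e)
    exact max_le (by nlinarith [sq_nonneg g]) (by nlinarith [sq_nonneg g, sq_nonneg e])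
  neg e g := by simp only [neg_sq]

section

variable {φ : ℝ} (h3 : φ ^ 3 = φ + 1)

include h3

theorem ell_mul (x a b : ℤ) : ell φ x a b * Qf φ (φ * x - a) (φ ^ 2 * x - b) = φ * NN x a b := by
  unfold ell Qf NN
  push_cast
  linear_combination ((φ ^ 3 * x ^ 2 * a) - (φ ^ 2 * x * a ^ 2) + (φ ^ 2 * x ^ 2 * b) + (φ * x ^ 3) -
    (2 * φ * x * a * b) + (φ * a ^ 3) + (x * a ^ 2) - (x * b ^ 2)) * h3

theorem ell_shift (x a b : ℤ) : φ * ell φ (b - x) x a = ell φ x a b := by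
  unfold ell
  push_cast
  linear_combination (x : ℝ) * h3

theorem ell_eq (x a b : ℤ) : ell φ x a b = (3 + 2 * φ) * x - φ ^ 2 * (φ * x - a) - φ * (φ ^ 2 * x - b) := by
  unfold ell
  linear_combination (2 * (x : ℝ)) * h3

theorem e_sq (e g : ℝ) : e ^ 2 ≤ 3.17 * Qf φ e g := by
  have := sup1 h3 e g; simp only [Qf]; linarith

theorem g_sq (e g : ℝ) : g ^ 2 ≤ 3.17 * Qf φ e g := by
  have := sup2 h3 e g; simp only [Qf]; linarith

theorem irr (x a : ℤ) (hx : x ≠ 0) : φ * x - a ≠ 0 := by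
  intro h
  have hxr : (x : ℝ) ≠ 0 := by exact_mod_cast hx
  obtain ⟨r, hr⟩ : ∃ r : ℚ, r = (a : ℚ) / x := ⟨_, rfl⟩
  have hφ : φ = (r : ℝ) := by
    rw [hr]; push_cast; field_simp; linarith
  have hr3 : r ^ 3 = r + 1 := by
    have : (r : ℝ) ^ 3 = r + 1 := by rw [← hφ]; exact h3
    exact_mod_cast this
  have hd : (r.den : ℚ) ≠ 0 := by exact_mod_cast r.den_nz
  have hnd : (r.num : ℚ) ^ 3 = r.num * (r.den : ℚ) ^ 2 + (r.den : ℚ) ^ 3 := by
    have e1 : (r.num : ℚ) = r * r.den := by rw [Rat.mul_den_eq_num]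
    rw [e1]
    linear_combination ((r.den : ℚ) ^ 3) * hr3
  have hz : r.num ^ 3 = r.num * (r.den : ℤ) ^ 2 + (r.den : ℤ) ^ 3 := by exact_mod_cast hnd
  have hev : Even (r.num ^ 3) ↔ Even (r.num * (r.den : ℤ) ^ 2 + (r.den : ℤ) ^ 3) := by rw [hz]
  have hcop := r.reduced
  by_cases h1 : Even r.num
  · by_cases h2 : Even (r.den : ℤ)
    · have h4 : 2 ∣ r.num.natAbs := by
        rw [← Int.natCast_dvd]; exact h1.two_dvd
      have h5 : 2 ∣ r.den := by
        have : (2 : ℤ) ∣ (r.den : ℤ) := h2.two_dvd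
        exact_mod_cast this
      have := Nat.dvd_gcd h4 h5
      rw [Nat.Coprime] at hcop
      rw [hcop] at this
      omega
    · simp [Int.even_add, Int.even_mul, Int.even_pow, h1, h2] at hev
  · by_cases h2 : Even (r.den : ℤ)
    · simp [Int.even_add, Int.even_mul, Int.even_pow, h1, h2] at hev
    · simp [Int.even_add, Int.even_mul, Int.even_pow, h1, h2] at hev

theorem Q_pos (e g : ℝ) (he : e ≠ 0) : 0 < Qf φ e g := by
  have := e_sq h3 e g
  have : 0 < e ^ 2 := by positivity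
  linarith

end

theorem NN_shift (x a b : ℤ) : NN (b - x) x a = NN x a b := by unfold NN; ring

/-! ### the Padovan sequence -/

theorem P_rec (n : ℕ) : P (n + 3) = P (n + 1) + P n := by rw [P]

theorem P_nonneg (n : ℕ) : 0 ≤ P n := by
  induction n using Nat.strong_induction_on with
  | _ n ih =>
    match n with
    | 0 => simp [P]
    | 1 => simp [P]
    | 2 => simp [P]
    | n + 3 =>
      rw [P_rec]
      have h1 := ih (n + 1) (by omega)
      have h2 := ih n (by omega)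
      omega

theorem P_mono1 (n : ℕ) : P (n + 3) ≤ P (n + 4) := by
  induction n using Nat.strong_induction_on with
  | _ n ih =>
    match n with
    | 0 => simp [P]
    | 1 => simp [P]
    | 2 => simp [P]
    | n + 3 =>
      rw [show n + 3 + 3 = (n + 3) + 3 by ring, P_rec (n + 3), show n + 3 + 4 = (n + 4) + 3 by ring,
        P_rec (n + 4)]
      have h1 := ih (n + 1) (by omega)
      have h2 := ih n (by omega)
      rw [show n + 1 + 3 = n + 4 by ring, show n + 1 + 4 = n + 5 by ring] at h1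
      rw [show n + 3 + 1 = n + 4 by ring, show n + 4 + 1 = n + 5 by ring]
      omega

theorem P_pos (n : ℕ) : 1 ≤ P (n + 4) := by
  induction n with
  | zero => simp [P]
  | succ n ih => exact ih.trans (P_mono1 (n + 1))

theorem P_lt1 (n : ℕ) : P (n + 8) < P (n + 9) := by
  have h1 := P_rec (n + 5)
  have h2 := P_rec (n + 6)
  have h3 := P_rec (n + 4)
  have h4 := P_rec (n + 3)
  have h5 := P_rec (n + 2)
  have h6 := P_rec (n + 1)
  have hp := P_pos n
  simp only [show n + 5 + 3 = n + 8 by ring, show n + 6 + 3 = n + 9 by ring,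
    show n + 4 + 3 = n + 7 by ring, show n + 3 + 3 = n + 6 by ring, show n + 2 + 3 = n + 5 by ring,
    show n + 5 + 1 = n + 6 by ring, show n + 6 + 1 = n + 7 by ring, show n + 4 + 1 = n + 5 by ring,
    show n + 3 + 1 = n + 4 by ring, show n + 2 + 1 = n + 3 by ring, show n + 1 + 3 = n + 4 by ring,
    show n + 1 + 1 = n + 2 by ring] at *
  -- P (n+9) - P (n+8) = P (n+7) - P (n+5) = P (n+4)
  omega

theorem P_mono {m n : ℕ} (hm : 3 ≤ m) (h : m ≤ n) : P m ≤ P n := by
  induction n, h using Nat.le_induction with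
  | base => exact le_rfl
  | succ n hn ih =>
    obtain ⟨k, rfl⟩ : ∃ k, n = k + 3 := ⟨n - 3, by omega⟩
    exact ih.trans (P_mono1 k)

theorem P_strict {m n : ℕ} (hm : 8 ≤ m) (h : m < n) : P m < P n := by
  obtain ⟨k, rfl⟩ : ∃ k, m = k + 8 := ⟨m - 8, by omega⟩
  exact (P_lt1 k).trans_le (P_mono (by omega) (by omega))

theorem NN_P (n : ℕ) : NN (P n) (P (n + 1)) (P (n + 2)) = 1 := by
  induction n with
  | zero => decide
  | succ n ih =>
    rw [← NN_shift, show P (n + 1 + 2) = P (n + 1) + P n from P_rec n,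
      show P (n + 1) + P n - P (n + 1) = P n by ring]
    exact ih

/-! ### reduction -/

/-- The five classes of elements of norm at most `12`. -/
def Cls (f : ℕ → ℤ) : Prop :=
  f = (fun n => P (n + 4)) ∨ f = (fun n => 2 * P (n + 2)) ∨ f = (fun n => 2 * P n + P (n + 1)) ∨
    f = (fun n => P (n + 1) + P (n + 3)) ∨ f = (fun n => 2 * P (n + 4) - P (n + 3))

theorem cls_rec {f : ℕ → ℤ} (hf : Cls f) (n : ℕ) : f (n + 3) = f (n + 1) + f n := by
  have h := P_rec n
  have h1 := P_rec (n + 1)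
  have h2 := P_rec (n + 2)
  have h3 := P_rec (n + 3)
  have h4 := P_rec (n + 4)
  simp only [show n + 1 + 3 = n + 4 by ring, show n + 2 + 3 = n + 5 by ring,
    show n + 3 + 3 = n + 6 by ring, show n + 4 + 3 = n + 7 by ring, show n + 1 + 1 = n + 2 by ring,
    show n + 2 + 1 = n + 3 by ring, show n + 3 + 1 = n + 4 by ring,
    show n + 4 + 1 = n + 5 by ring] at h h1 h2 h3 h4
  rcases hf with rfl | rfl | rfl | rfl | rfl <;>
    simp only [show n + 3 + 4 = n + 7 by ring, show n + 1 + 4 = n + 5 by ring,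
      show n + 3 + 2 = n + 5 by ring, show n + 1 + 2 = n + 3 by ring, show n + 3 + 1 = n + 4 by ring,
      show n + 1 + 1 = n + 2 by ring, show n + 3 + 3 = n + 6 by ring,
      show n + 1 + 3 = n + 4 by ring] <;> omega

theorem box_check : ∀ x ∈ Finset.Icc (-1 : ℤ) 2, ∀ a ∈ Finset.Icc (-4 : ℤ) 6,
    ∀ b ∈ Finset.Icc (-5 : ℤ) 7, 1 ≤ NN x a b → NN x a b ≤ 12 →
    3990 ≤ 1000 * x + 1755 * a + 1325 * b → 1000 * x + 1755 * a + 1325 * b ≤ 5310 →
    (x = 1 ∧ a = 1 ∧ b = 1) ∨ (x = 2 ∧ a = 0 ∧ b = 2) ∨ (x = 0 ∧ a = 1 ∧ b = 2) ∨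
      (x = 0 ∧ a = 2 ∧ b = 1) ∨ (x = 2 ∧ a = 1 ∧ b = 1) := by
  decide +kernel

theorem red {φ : ℝ} (h3 : φ ^ 3 = φ + 1) (k : ℕ) : ∀ x a b : ℤ, 4 * φ ^ k ≤ ell φ x a b →
    ell φ x a b < 4 * φ ^ (k + 1) → 1 ≤ NN x a b → NN x a b ≤ 12 →
    ∃ f, Cls f ∧ x = f k ∧ a = f (k + 1) ∧ b = f (k + 2) := by
  have l1 := lo h3
  have l2 := hi h3
  have l3 := sq_lo h3
  have l4 := sq_hi h3
  induction k with
  | zero =>
    intro x a b h1 h2 hN1 hN2
    rw [pow_zero, mul_one] at h1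
    rw [zero_add, pow_one] at h2
    obtain ⟨e, he⟩ : ∃ e : ℝ, e = φ * x - a := ⟨_, rfl⟩
    obtain ⟨g, hg⟩ : ∃ g : ℝ, g = φ ^ 2 * x - b := ⟨_, rfl⟩
    have hm := ell_mul h3 x a b
    have hl := ell_eq h3 x a b
    rw [← he, ← hg] at hm hl
    have hNr : (NN x a b : ℝ) ≤ 12 := by exact_mod_cast hN2
    have hQ0 : 0 ≤ Qf φ e g := by have := e_sq h3 e g; nlinarith [sq_nonneg e]
    have hQ : Qf φ e g ≤ 3.975 := by
      have : 4 * Qf φ e g ≤ ell φ x a b * Qf φ e g := mul_le_mul_of_nonneg_right h1 hQ0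
      nlinarith
    have he2 := e_sq h3 e g
    have hg2 := g_sq h3 e g
    have e1 : e < 3.56 := by nlinarith
    have e2 : -3.56 < e := by nlinarith
    have g1 : g < 3.56 := by nlinarith
    have g2 : -3.56 < g := by nlinarith
    have fe1 : φ ^ 2 * e ≤ φ ^ 2 * 3.56 := by nlinarith
    have fe2 : -(φ ^ 2 * 3.56) ≤ φ ^ 2 * e := by nlinarith
    have fg1 : φ * g ≤ φ * 3.56 := by nlinarith
    have fg2 : -(φ * 3.56) ≤ φ * g := by nlinarith
    have x1 : (x : ℝ) < 3 := by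
      by_contra hcon
      push Not at hcon
      nlinarith
    have x2 : (-2 : ℝ) < x := by
      by_contra hcon
      push Not at hcon
      nlinarith
    have x1' : x ≤ 2 := by
      have : x < 3 := by exact_mod_cast x1
      omega
    have x2' : -1 ≤ x := by
      have : -2 < x := by exact_mod_cast x2
      omega
    have x1r : (x : ℝ) ≤ 2 := by exact_mod_cast x1'
    have x2r : (-1 : ℝ) ≤ x := by exact_mod_cast x2'
    have a1 : (a : ℝ) < 7 := by nlinarith
    have a2 : (-5 : ℝ) < a := by nlinarith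
    have b1 : (b : ℝ) < 8 := by nlinarith
    have b2 : (-6 : ℝ) < b := by nlinarith
    have a1' : a ≤ 6 := by
      have : a < 7 := by exact_mod_cast a1
      omega
    have a2' : -4 ≤ a := by
      have : -5 < a := by exact_mod_cast a2
      omega
    have b1' : b ≤ 7 := by
      have : b < 8 := by exact_mod_cast b1
      omega
    have b2' : -5 ≤ b := by
      have : -6 < b := by exact_mod_cast b2
      omega
    have L1 : (3990 : ℤ) ≤ 1000 * x + 1755 * a + 1325 * b := by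
      have : (3990 : ℝ) ≤ 1000 * x + 1755 * a + 1325 * b := by
        unfold ell at h1
        nlinarith
      exact_mod_cast this
    have L2 : 1000 * x + 1755 * a + 1325 * b ≤ (5310 : ℤ) := by
      have : 1000 * (x : ℝ) + 1755 * a + 1325 * b ≤ (5310 : ℝ) := by
        unfold ell at h2
        nlinarith
      exact_mod_cast this
    rcases box_check x (Finset.mem_Icc.2 ⟨x2', x1'⟩) a (Finset.mem_Icc.2 ⟨a2', a1'⟩) b
      (Finset.mem_Icc.2 ⟨b2', b1'⟩) hN1 hN2 L1 L2 with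
      ⟨rfl, rfl, rfl⟩ | ⟨rfl, rfl, rfl⟩ | ⟨rfl, rfl, rfl⟩ | ⟨rfl, rfl, rfl⟩ | ⟨rfl, rfl, rfl⟩
    · exact ⟨_, Or.inl rfl, by decide, by decide, by decide⟩
    · exact ⟨_, Or.inr (Or.inl rfl), by decide, by decide, by decide⟩
    · exact ⟨_, Or.inr (Or.inr (Or.inl rfl)), by decide, by decide, by decide⟩
    · exact ⟨_, Or.inr (Or.inr (Or.inr (Or.inl rfl))), by decide, by decide, by decide⟩
    · exact ⟨_, Or.inr (Or.inr (Or.inr (Or.inr rfl))), by decide, by decide, by decide⟩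
  | succ k ih =>
    intro x a b h1 h2 hN1 hN2
    have hs := ell_shift h3 x a b
    have hφ0 : 0 < φ := by linarith
    have h1' : 4 * φ ^ k ≤ ell φ (b - x) x a := by
      rw [← hs, pow_succ] at h1
      have : φ * (4 * φ ^ k) ≤ φ * ell φ (b - x) x a := by linarith
      exact le_of_mul_le_mul_left this hφ0
    have h2' : ell φ (b - x) x a < 4 * φ ^ (k + 1) := by
      rw [← hs, pow_succ] at h2
      have : φ * ell φ (b - x) x a < φ * (4 * φ ^ (k + 1)) := by linarith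
      exact lt_of_mul_lt_mul_left this hφ0.le
    obtain ⟨f, hf, e1, e2, e3⟩ := ih (b - x) x a h1' h2' (by rw [NN_shift]; exact hN1)
      (by rw [NN_shift]; exact hN2)
    refine ⟨f, hf, e2, e3, ?_⟩
    have := cls_rec hf k
    rw [show k + 1 + 2 = k + 3 by ring, this, ← e1, ← e2]
    ring

end Pool.Agent.Q3.BestPhi
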