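import Mathlib
import Pool.Agent.Q3.BestPhi.Arith

/-!
# Growth of the sequence of the best denominators
-/

set_option autoImplicit false

open Filter

namespace Pool.Agent.Q3.BestPhi

theorem P_ge (n : ℕ) : (n : ℤ) ≤ P (n + 8) := by
  induction n with
  | zero => exact P_nonneg _
  | succ n ih =>
    have := P_strict (show 8 ≤ n + 8 by omega) (show n + 8 < n + 9 by omega)
    rw [show n + 1 + 8 = n + 9 by ring]
    push_cast
    omega

theorem exists_K (x : ℤ) (hx : P 40 ≤ x) : ∃ K, 40 ≤ K ∧ P K ≤ x ∧ x < P (K + 1) := by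
  have hex : ∃ n, 40 ≤ n ∧ x < P (n + 1) := by
    refine ⟨x.toNat + 40, by omega, ?_⟩
    have h1 := P_ge (x.toNat + 33)
    rw [show x.toNat + 33 + 8 = x.toNat + 40 + 1 by ring] at h1
    push_cast at h1
    omega
  classical
  obtain ⟨n, hn⟩ : ∃ n, n = Nat.find hex := ⟨_, rfl⟩
  have h1 := Nat.find_spec hex
  rw [← hn] at h1
  refine ⟨n, h1.1, ?_, h1.2⟩
  rcases Nat.eq_or_lt_of_le h1.1 with h | h
  · rw [← h]; exact hx
  · have h2 := Nat.find_min hex (m := n - 1) (by omega)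
    push Not at h2
    have h4 := h2 (by omega)
    rwa [Nat.sub_add_cancel (by omega)] at h4

section

variable {φ : ℝ} (h3 : φ ^ 3 = φ + 1)

include h3

theorem P_low (n : ℕ) : φ ^ (n + 4) ≤ P (n + 4) * φ ^ 6 := by
  have l1 := lo h3
  have h46 : φ ^ 4 ≤ φ ^ 6 := pow_le_pow_right₀ (by linarith) (by norm_num)
  have h56 : φ ^ 5 ≤ φ ^ 6 := pow_le_pow_right₀ (by linarith) (by norm_num)
  induction n using Nat.strong_induction_on with
  | _ n ih =>
    match n with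
    | 0 => have : P (0 + 4) = 1 := by decide
           rw [this]; push_cast; linarith
    | 1 => have : P (1 + 4) = 1 := by decide
           rw [this]; push_cast; norm_num; linarith
    | 2 => have : P (2 + 4) = 1 := by decide
           rw [this]; push_cast; norm_num
    | n + 3 =>
      have h1 := ih n (by omega)
      have h2 := ih (n + 1) (by omega)
      rw [show n + 3 + 4 = (n + 4) + 3 by ring, P_rec, show n + 4 + 1 = n + 1 + 4 by ring]
      push_cast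
      have e : φ ^ (n + 4 + 3) = φ ^ (n + 1 + 4) + φ ^ (n + 4) := by
        rw [pow_add φ (n + 4) 3, h3]; ring
      rw [e]
      linarith

theorem growth (B : Set ℕ) (hinf : B.Infinite) (M0 : ℕ)
    (hU : ∀ M ∈ B, M0 ≤ M → ∃ k, 8 ≤ k ∧ (M : ℤ) = P k)
    (hC : ∀ k, 8 ≤ k → (M0 : ℤ) ≤ P k → (∀ i < 6, ∃ M ∈ B, (M : ℤ) = P (k + i)) → False) :
    ∀ᶠ ν : ℕ in atTop, (7 / 5 : ℝ) ^ (ν + 1) ≤ (Nat.nth (· ∈ B) ν : ℝ) := by
  have l1 := lo h3
  obtain ⟨m, hm⟩ : ∃ m : ℕ → ℕ, m = Nat.nth (· ∈ B) := ⟨_, rfl⟩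
  rw [← hm]
  have hinf' : (Set.ofPred (· ∈ B)).Infinite := hinf
  have hmono : StrictMono m := by rw [hm]; exact Nat.nth_strictMono hinf'
  have hmem : ∀ ν, m ν ∈ B := by
    intro ν; rw [hm]; exact Nat.nth_mem_of_infinite hinf' ν
  have hge : ∀ ν, ν ≤ m ν := fun ν => hmono.le_apply
  have hex : ∀ ν, ∃ k, M0 ≤ ν → 8 ≤ k ∧ (m ν : ℤ) = P k := by
    intro ν
    by_cases h : M0 ≤ ν
    · obtain ⟨k, hk⟩ := hU (m ν) (hmem ν) (h.trans (hge ν))
      exact ⟨k, fun _ => hk⟩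
    · exact ⟨0, fun h' => absurd h' h⟩
  choose κ hκ using hex
  have κmono : ∀ ν ν', M0 ≤ ν → ν < ν' → κ ν < κ ν' := by
    intro ν ν' h1 h2
    by_contra hcon
    push Not at hcon
    obtain ⟨a1, a2⟩ := hκ ν h1
    obtain ⟨b1, b2⟩ := hκ ν' (by omega)
    have h4 := P_mono (show 3 ≤ κ ν' by omega) hcon
    have h5 := hmono h2
    omega
  have κ5 : ∀ ν, M0 ≤ ν → κ ν + 6 ≤ κ (ν + 5) := by
    intro ν h1
    by_contra hcon
    push Not at hcon
    have c1 := κmono ν (ν + 1) h1 (by omega)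
    have c2 := κmono (ν + 1) (ν + 2) (by omega) (by omega)
    have c3 := κmono (ν + 2) (ν + 3) (by omega) (by omega)
    have c4 := κmono (ν + 3) (ν + 4) (by omega) (by omega)
    have c5 := κmono (ν + 4) (ν + 5) (by omega) (by omega)
    obtain ⟨a1, a2⟩ := hκ ν h1
    refine hC (κ ν) a1 ?_ ?_
    · rw [← a2]
      have := hge ν
      omega
    · intro i hi
      refine ⟨m (ν + i), hmem _, ?_⟩
      rw [(hκ (ν + i) (by omega)).2]
      congr 1
      interval_cases i <;> (try simp only [add_zero]) <;> omega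
  have κj : ∀ j, 6 * j + 8 ≤ κ (M0 + 5 * j) := by
    intro j
    induction j with
    | zero => exact (hκ (M0 + 5 * 0) (by omega)).1
    | succ j ih =>
      have := κ5 (M0 + 5 * j) (by omega)
      rw [show M0 + 5 * (j + 1) = M0 + 5 * j + 5 by ring]
      omega
  have hlow : ∀ ν, M0 ≤ ν → (φ ^ 6) ^ ((ν - M0) / 5) ≤ (m ν : ℝ) := by
    intro ν hν
    obtain ⟨j, hj⟩ : ∃ j, j = (ν - M0) / 5 := ⟨_, rfl⟩
    rw [← hj]
    have h1 : m (M0 + 5 * j) ≤ m ν := hmono.monotone (by omega)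
    obtain ⟨a1, a2⟩ := hκ (M0 + 5 * j) (by omega)
    have h2 := κj j
    have h4 : P (6 * j + 8) ≤ P (κ (M0 + 5 * j)) := P_mono (by omega) h2
    have h5 := P_low h3 (6 * j + 4)
    rw [show 6 * j + 4 + 4 = 6 * j + 8 by ring] at h5
    have h6 : (P (6 * j + 8) : ℝ) ≤ m ν := by
      have : P (6 * j + 8) ≤ (m ν : ℤ) := by omega
      exact_mod_cast this
    have h7 : (φ ^ 6) ^ j * φ ^ 6 ≤ (m ν : ℝ) * φ ^ 6 := by
      calc (φ ^ 6) ^ j * φ ^ 6 = φ ^ (6 * j + 6) := by rw [← pow_mul, ← pow_add]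
        _ ≤ φ ^ (6 * j + 8) := pow_le_pow_right₀ (by linarith) (by omega)
        _ ≤ P (6 * j + 8) * φ ^ 6 := h5
        _ ≤ _ := by gcongr
    exact le_of_mul_le_mul_right h7 (by positivity)
  have hratio : (7 / 5 : ℝ) ^ 5 < φ ^ 6 := by
    have : φ ^ 6 = (φ + 1) ^ 2 := by rw [← h3]; ring
    rw [this]
    nlinarith
  obtain ⟨ρ, hρ⟩ : ∃ ρ : ℝ, ρ = φ ^ 6 / (7 / 5 : ℝ) ^ 5 := ⟨_, rfl⟩
  have hρ1 : 1 < ρ := by rw [hρ, one_lt_div (by positivity)]; exact hratio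
  have hev := (tendsto_pow_atTop_atTop_of_one_lt hρ1).eventually_ge_atTop ((7 / 5 : ℝ) ^ (M0 + 5))
  rw [Filter.eventually_atTop] at hev
  obtain ⟨J, hJ⟩ := hev
  filter_upwards [Filter.eventually_ge_atTop (M0 + 5 * J)] with ν hν
  have hj : J ≤ (ν - M0) / 5 := by omega
  refine le_trans ?_ (hlow ν (by omega))
  obtain ⟨j, hj'⟩ : ∃ j, j = (ν - M0) / 5 := ⟨_, rfl⟩
  rw [← hj'] at hj ⊢
  have h1 := hJ j hj
  rw [hρ, div_pow (φ ^ 6) _ j, le_div_iff₀ (by positivity)] at h1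
  refine le_trans ?_ h1
  calc (7 / 5 : ℝ) ^ (ν + 1) ≤ (7 / 5 : ℝ) ^ (M0 + 5 + 5 * j) :=
        pow_le_pow_right₀ (by norm_num) (by omega)
    _ = (7 / 5 : ℝ) ^ (M0 + 5) * ((7 / 5 : ℝ) ^ 5) ^ j := by rw [pow_add, pow_mul]

theorem liminf_ge (m : ℕ → ℕ) (h : ∀ᶠ ν : ℕ in atTop, (7 / 5 : ℝ) ^ (ν + 1) ≤ (m ν : ℝ)) :
    ((7 / 5 : ℝ) : EReal) ≤ liminf (fun ν : ℕ => ((((m ν : ℝ) ^ (1 / ((ν : ℝ) + 1))) : ℝ) : EReal)) atTop := by
  apply Filter.le_liminf_of_le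
  · isBoundedDefault
  · filter_upwards [h] with ν hν
    rw [EReal.coe_le_coe_iff]
    have h1 : ((7 / 5 : ℝ) ^ (ν + 1)) ^ (1 / ((ν : ℝ) + 1)) = 7 / 5 := by
      rw [one_div]
      have := Real.pow_rpow_inv_natCast (show (0 : ℝ) ≤ 7 / 5 by norm_num) (Nat.succ_ne_zero ν)
      rw [Nat.cast_succ] at this
      exact this
    rw [← h1]
    exact Real.rpow_le_rpow (by positivity) hν (by positivity)

end

end Pool.Agent.Q3.BestPhi
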