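import Mathlib
import Pool.Agent.Q3.BestPhi.Arith

/-!
# Best approximations to `(φ, φ²)`
-/

set_option autoImplicit false

namespace Pool.Agent.Q3.BestPhi

/-- Best approximation vectors for a squared norm `q`. -/
def BestQ (φ : ℝ) (q : ℝ → ℝ → ℝ) (x a b : ℤ) : Prop :=
  ¬ (x = 0 ∧ a = 0 ∧ b = 0) ∧ ∀ x' a' b' : ℤ, |x'| ≤ |x| →
    q (φ * x' - a') (φ ^ 2 * x' - b') ≤ q (φ * x - a) (φ ^ 2 * x - b) →
    (x' = 0 ∧ a' = 0 ∧ b' = 0) ∨ (x' = x ∧ a' = a ∧ b' = b) ∨ (x' = -x ∧ a' = -a ∧ b' = -b)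

/-- errors of the units -/
noncomputable def E (φ : ℝ) (k : ℕ) : ℝ := φ * P k - P (k + 1)
/-- errors of the units -/
noncomputable def G (φ : ℝ) (k : ℕ) : ℝ := φ ^ 2 * P k - P (k + 2)

section

variable {φ : ℝ} (h3 : φ ^ 3 = φ + 1)

theorem E_succ (k : ℕ) : E φ (k + 1) = G φ k - φ * E φ k := by
  unfold E G
  rw [show k + 1 + 1 = k + 2 by ring]
  ring

include h3

theorem G_succ (k : ℕ) : G φ (k + 1) = -(φ ^ 2 - 1) * E φ k := by
  unfold E G
  rw [show P (k + 1 + 2) = P (k + 1) + P k from P_rec k]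
  push_cast
  linear_combination (P k : ℝ) * h3

theorem E2 (k : ℕ) : E φ (k + 2) = E φ k - φ * G φ k := by
  rw [show k + 2 = (k + 1) + 1 by ring, E_succ, G_succ h3, E_succ]
  ring

theorem E3 (k : ℕ) : E φ (k + 3) = G φ k + (1 - φ) * E φ k := by
  rw [show k + 3 = (k + 2) + 1 by ring, E_succ, show k + 2 = (k + 1) + 1 by ring, G_succ h3, E_succ,
    show k + 1 + 1 = k + 2 by ring, E2 h3]
  linear_combination (E φ k) * h3

theorem E4 (k : ℕ) : E φ (k + 4) = (1 - φ) * (E φ k + G φ k) := by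
  rw [show k + 4 = (k + 3) + 1 by ring, E_succ, show k + 3 = (k + 2) + 1 by ring, G_succ h3,
    show k + 2 + 1 = k + 3 by ring, E2 h3, E3 h3]
  linear_combination (G φ k) * h3

theorem G4 (k : ℕ) : G φ (k + 4) = -(φ ^ 2 - 1) * (G φ k + (1 - φ) * E φ k) := by
  rw [show k + 4 = (k + 3) + 1 by ring, G_succ h3, E3 h3]

theorem ell_P (k : ℕ) : ell φ (P k) (P (k + 1)) (P (k + 2)) = φ ^ (k + 1) := by
  induction k with
  | zero => simp [ell, P]
  | succ k ih =>
    rw [pow_succ, ← ih]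
    unfold ell
    rw [show P (k + 1 + 2) = P (k + 1) + P k from P_rec k, show k + 1 + 1 = k + 2 by ring]
    push_cast
    linear_combination (-(P (k + 1) : ℝ)) * h3

theorem phi_pos : 0 < φ := by have := lo h3; linarith

theorem Q_P (k : ℕ) : Qf φ (E φ k) (G φ k) * φ ^ k = 1 := by
  have h := ell_mul h3 (P k) (P (k + 1)) (P (k + 2))
  rw [NN_P, ell_P h3] at h
  have h0 := phi_pos h3
  have h1 : φ * (Qf φ (E φ k) (G φ k) * φ ^ k) = φ * 1 := by
    unfold E G
    rw [pow_succ] at h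
    push_cast at h
    linarith
  exact mul_left_cancel₀ h0.ne' h1

theorem big {K : ℕ} (hK : 40 ≤ K) : 50000 ≤ φ ^ K := by
  have h1 := lo h3
  calc (50000 : ℝ) ≤ (1.32471 : ℝ) ^ 40 := by norm_num
    _ ≤ φ ^ 40 := by gcongr
    _ ≤ φ ^ K := pow_le_pow_right₀ (by linarith) hK

theorem small_eg {e g : ℝ} {K : ℕ} (hK : 40 ≤ K) (h : Qf φ e g * φ ^ K ≤ 9.78) :
    |e| < 0.03 ∧ |g| < 0.03 := by
  have hb := big h3 hK
  have h1 : Qf φ e g ≤ 0.0002 := by
    by_contra hcon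
    push Not at hcon
    nlinarith
  have h2 := e_sq h3 e g
  have h4 := g_sq h3 e g
  constructor
  · rw [abs_lt]; constructor <;> nlinarith
  · rw [abs_lt]; constructor <;> nlinarith

variable {q : ℝ → ℝ → ℝ} {α β : ℝ} (hq : GoodQ φ q α β)

omit h3 in
theorem cmp {x a b : ℤ} (hb : BestQ φ q x a b) (hx : 0 < x) {m : ℕ} (hm : P m ≤ x) (hPm : 0 < P m)
    (hle : q (E φ m) (G φ m) ≤ q (φ * x - a) (φ ^ 2 * x - b)) :
    x = P m ∧ a = P (m + 1) ∧ b = P (m + 2) := by
  rcases hb.2 (P m) (P (m + 1)) (P (m + 2)) (by rw [abs_of_pos hPm, abs_of_pos hx]; exact hm) hle with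
    ⟨h, _⟩ | ⟨h1, h2, h4⟩ | ⟨h, _⟩
  · omega
  · exact ⟨h1.symm, h2.symm, h4.symm⟩
  · omega

include hq

theorem Qz_bound {x a b : ℤ} (hb : BestQ φ q x a b) {K : ℕ} (hK : 40 ≤ K) (h1 : P K ≤ x) :
    Qf φ (φ * x - a) (φ ^ 2 * x - b) * φ ^ K ≤ 9.78 := by
  have hPK : 0 < P K := by
    obtain ⟨k, rfl⟩ : ∃ k, K = k + 4 := ⟨K - 4, by omega⟩
    have := P_pos k
    omega
  have hφK : 0 < φ ^ K := pow_pos (phi_pos h3) K
  by_cases h : q (E φ K) (G φ K) ≤ q (φ * x - a) (φ ^ 2 * x - b)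
  · obtain ⟨rfl, rfl, rfl⟩ := cmp hb (by omega) h1 hPK h
    have := Q_P h3 K
    unfold E G at this
    rw [this]
    norm_num
  · push Not at h
    have e1 := hq.low (φ * x - a) (φ ^ 2 * x - b)
    have e2 := hq.up (E φ K) (G φ K)
    have e3 := Q_P h3 K
    have e4 := hq.prod
    have e5 := hq.alpha
    have e6 : Qf φ (φ * x - a) (φ ^ 2 * x - b) ≤ α * (β * Qf φ (E φ K) (G φ K)) :=
      e1.trans (mul_le_mul_of_nonneg_left (h.le.trans e2) e5.le)
    calc Qf φ (φ * x - a) (φ ^ 2 * x - b) * φ ^ K ≤ α * (β * Qf φ (E φ K) (G φ K)) * φ ^ K := by gcongr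
      _ = (α * β) * (Qf φ (E φ K) (G φ K) * φ ^ K) := by ring
      _ = α * β := by rw [e3, mul_one]
      _ ≤ 9.78 := e4

theorem ell_bounds {x a b : ℤ} (hb : BestQ φ q x a b) {K : ℕ} (hK : 40 ≤ K) (h1 : P K ≤ x)
    (h2 : x < P (K + 1)) : 50000 ≤ ell φ x a b ∧ 1 ≤ NN x a b ∧ NN x a b ≤ 12 := by
  have l1 := lo h3
  have l2 := hi h3
  have l3 := sq_lo h3
  have l4 := sq_hi h3
  have hφ := phi_pos h3
  obtain ⟨e, he⟩ : ∃ e : ℝ, e = φ * x - a := ⟨_, rfl⟩
  obtain ⟨g, hg⟩ : ∃ g : ℝ, g = φ ^ 2 * x - b := ⟨_, rfl⟩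
  have hQ := Qz_bound h3 hq hb hK h1
  have hm := ell_mul h3 x a b
  have hl := ell_eq h3 x a b
  rw [← he, ← hg] at hQ hm hl
  obtain ⟨s1, s2⟩ := small_eg h3 hK hQ
  rw [abs_lt] at s1 s2
  have t1 := Q_P h3 K
  have t2 := Q_P h3 (K + 1)
  obtain ⟨s3, s4⟩ := small_eg h3 hK (le_of_eq_of_le t1 (by norm_num))
  obtain ⟨s5, s6⟩ := small_eg h3 (show 40 ≤ K + 1 by omega) (le_of_eq_of_le t2 (by norm_num))
  rw [abs_lt] at s3 s4 s5 s6
  have hl1 := ell_eq h3 (P K) (P (K + 1)) (P (K + 2))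
  have hl2 := ell_eq h3 (P (K + 1)) (P (K + 1 + 1)) (P (K + 1 + 2))
  rw [ell_P h3] at hl1 hl2
  change φ ^ (K + 1) = (3 + 2 * φ) * (P K : ℝ) - φ ^ 2 * E φ K - φ * G φ K at hl1
  change φ ^ (K + 1 + 1) = (3 + 2 * φ) * (P (K + 1) : ℝ) - φ ^ 2 * E φ (K + 1) - φ * G φ (K + 1) at hl2
  have hbig := big h3 hK
  have x1 : (P K : ℝ) ≤ x := by exact_mod_cast h1
  have x2 : (x : ℝ) ≤ P (K + 1) := by exact_mod_cast h2.le
  have y1 : (3 + 2 * φ) * (P K : ℝ) ≤ (3 + 2 * φ) * x := mul_le_mul_of_nonneg_left x1 (by linarith)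
  have y2 : (3 + 2 * φ) * (x : ℝ) ≤ (3 + 2 * φ) * P (K + 1) :=
    mul_le_mul_of_nonneg_left x2 (by linarith)
  have m1 : ∀ t : ℝ, -0.03 < t → t < 0.03 → -0.053 ≤ φ ^ 2 * t ∧ φ ^ 2 * t ≤ 0.053 ∧
      -0.04 ≤ φ * t ∧ φ * t ≤ 0.04 := by
    intro t u1 u2
    refine ⟨?_, ?_, ?_, ?_⟩ <;> nlinarith
  obtain ⟨a1, a2, _, _⟩ := m1 e s1.1 s1.2
  obtain ⟨_, _, a3, a4⟩ := m1 g s2.1 s2.2
  obtain ⟨b1, b2, _, _⟩ := m1 _ s3.1 s3.2
  obtain ⟨_, _, b3, b4⟩ := m1 _ s4.1 s4.2
  obtain ⟨c1, c2, _, _⟩ := m1 _ s5.1 s5.2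
  obtain ⟨_, _, c3, c4⟩ := m1 _ s6.1 s6.2
  have up : ell φ x a b ≤ φ ^ (K + 1 + 1) + 0.2 := by linarith
  have dn : φ ^ (K + 1) - 0.2 ≤ ell φ x a b := by linarith
  have hk1 : φ ^ (K + 1) = φ ^ K * φ := pow_succ _ _
  have hk2 : φ ^ (K + 1 + 1) = φ ^ K * φ ^ 2 := by ring
  have hell : 50000 ≤ ell φ x a b := by rw [hk1] at dn; nlinarith
  have hPK : 0 < P K := by
    obtain ⟨k, rfl⟩ : ∃ k, K = k + 4 := ⟨K - 4, by omega⟩
    have := P_pos k
    omega
  have he0 : e ≠ 0 := by rw [he]; exact irr h3 x a (by omega)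
  have hQpos := Q_pos h3 e g he0
  refine ⟨hell, ?_, ?_⟩
  · have h5 : 0 < φ * (NN x a b : ℝ) := by rw [← hm]; positivity
    have h6 : (0 : ℝ) < NN x a b := by
      by_contra hcon
      push Not at hcon
      nlinarith
    have h7 : 0 < NN x a b := by exact_mod_cast h6
    omega
  · by_contra hcon
    push Not at hcon
    have h5 : (13 : ℝ) ≤ NN x a b := by exact_mod_cast hcon
    have h6 : φ * 13 * φ ^ K ≤ ell φ x a b * (Qf φ e g * φ ^ K) := by
      have : φ * 13 ≤ ell φ x a b * Qf φ e g := by rw [hm]; nlinarith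
      calc φ * 13 * φ ^ K ≤ (ell φ x a b * Qf φ e g) * φ ^ K := by gcongr
        _ = _ := by ring
    have h7 : ell φ x a b * (Qf φ e g * φ ^ K) ≤ (φ ^ K * φ ^ 2 + 0.2) * 9.78 := by
      rw [hk2] at up
      apply mul_le_mul up hQ _ (by positivity)
      positivity
    have h8 : 0.05 ≤ φ * (13 - 9.78 * φ) := by nlinarith
    have h9 : φ ^ K * (φ * (13 - 9.78 * φ)) ≤ 1.956 := by nlinarith
    nlinarith

theorem unit_of_best {x a b : ℤ} (hb : BestQ φ q x a b) {K : ℕ} (hK : 40 ≤ K) (h1 : P K ≤ x)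
    (h2 : x < P (K + 1)) : ∃ k, 8 ≤ k ∧ x = P k ∧ a = P (k + 1) ∧ b = P (k + 2) := by
  have l1 := lo h3
  have l2 := hi h3
  obtain ⟨hell, hN1, hN2⟩ := ell_bounds h3 hq hb hK h1 h2
  obtain ⟨k, hk1, hk2⟩ := exists_nat_pow_near (x := ell φ x a b / 4) (y := φ) (by linarith) (by linarith)
  have hk10 : 10 ≤ k := by
    by_contra hcon
    push Not at hcon
    have h5 : φ ^ (k + 1) ≤ φ ^ 10 := pow_le_pow_right₀ (by linarith) (by omega)
    have h6 : φ ^ 10 ≤ (1.32472 : ℝ) ^ 10 := pow_le_pow_left₀ (by linarith) l2.le 10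
    have h7 : (1.32472 : ℝ) ^ 10 ≤ 17 := by norm_num
    linarith
  obtain ⟨f, hf, rfl, rfl, rfl⟩ := red h3 k x a b (by linarith) (by linarith) hN1 hN2
  have hx : 0 < f k := by
    obtain ⟨k', rfl⟩ : ∃ k', K = k' + 4 := ⟨K - 4, by omega⟩
    have := P_pos k'
    omega
  obtain ⟨j, rfl⟩ : ∃ j, k = j + 10 := ⟨k - 10, by omega⟩
  have pp : ∀ n, 4 ≤ n → 0 < P n := by
    intro n hn
    obtain ⟨k', rfl⟩ : ∃ k', n = k' + 4 := ⟨n - 4, by omega⟩
    have := P_pos k'
    omega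
  rcases hf with rfl | rfl | rfl | rfl | rfl
  · exact ⟨j + 10 + 4, by omega, rfl, rfl, rfl⟩
  · exfalso
    have hp := pp (j + 10 + 2) (by omega)
    have hc := cmp hb hx (m := j + 10 + 2) (by simp only; omega) hp (by
      refine (hq.c8 _ _).trans (le_of_eq ?_)
      unfold E G
      congr 1 <;> · push_cast; ring_nf)
    have := hc.1
    simp only at this
    omega
  · exfalso
    have r1 := P_rec (j + 9)
    have r2 := P_rec (j + 11)
    have s1 : P (j + 9) < P (j + 10) := P_strict (by omega) (by omega)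
    simp only [show j + 9 + 3 = j + 12 by ring, show j + 9 + 1 = j + 10 by ring,
      show j + 11 + 3 = j + 14 by ring, show j + 11 + 1 = j + 12 by ring] at r1 r2
    have hc := cmp hb hx (m := j + 14) (by
        simp only [show j + 10 + 1 = j + 11 by ring]; omega) (pp _ (by omega)) (by
      have c := hq.c7 (E φ (j + 10)) (G φ (j + 10))
      rw [← E4 h3, ← G4 h3] at c
      refine c.trans (le_of_eq ?_)
      have g1 := G_succ h3 (j + 10)
      have e1 := E_succ (φ := φ) (j + 10)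
      congr 1
      · have : (2 - φ) * E φ (j + 10) + G φ (j + 10) = 2 * E φ (j + 10) + E φ (j + 10 + 1) := by
          rw [e1]; ring
        rw [this]; unfold E; push_cast; ring_nf
      · have : 2 * G φ (j + 10) - (φ ^ 2 - 1) * E φ (j + 10) = 2 * G φ (j + 10) + G φ (j + 10 + 1) := by
          rw [g1]; ring
        rw [this]; unfold G; push_cast; ring_nf)
    have := hc.1
    simp only [show j + 10 + 1 = j + 11 by ring] at this
    omega
  · exfalso
    have hc := cmp hb hx (m := j + 12) (by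
        have s1 := P_mono (show 3 ≤ j + 12 by omega) (show j + 12 ≤ j + 13 by omega)
        have := P_nonneg (j + 11)
        simp only [show j + 10 + 1 = j + 11 by ring, show j + 10 + 3 = j + 13 by ring]
        omega) (pp _ (by omega)) (by
      have c := hq.c5 (E φ (j + 11)) (G φ (j + 11))
      have g1 := G_succ h3 (j + 11)
      have e1 := E_succ (φ := φ) (j + 11)
      rw [← g1, ← e1] at c
      refine c.trans (le_of_eq ?_)
      have e2 := E2 h3 (j + 11)
      have g3 := G_succ h3 (j + 12)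
      rw [show j + 12 = (j + 11) + 1 by ring, e1] at g3
      congr 1
      · have : 2 * E φ (j + 11) - φ * G φ (j + 11) = E φ (j + 11) + E φ (j + 11 + 2) := by
          rw [e2]; ring
        rw [this]; unfold E; push_cast; ring_nf
      · have : E φ (j + 11) + (2 - φ ^ 2) * G φ (j + 11) = G φ (j + 11) + G φ (j + 11 + 1 + 1) := by
          rw [g3]; linear_combination (-(E φ (j + 11))) * h3
        rw [this]; unfold G; push_cast; ring_nf)
    have := hc.1
    have s1 := P_mono (show 3 ≤ j + 12 by omega) (show j + 12 ≤ j + 13 by omega)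
    have s2 := pp (j + 11) (by omega)
    simp only [show j + 10 + 1 = j + 11 by ring, show j + 10 + 3 = j + 13 by ring] at this
    omega
  · exfalso
    have s1 : P (j + 13) < P (j + 14) := P_strict (by omega) (by omega)
    have hc := cmp hb hx (m := j + 14) (by
        simp only [show j + 10 + 4 = j + 14 by ring, show j + 10 + 3 = j + 13 by ring]
        omega) (pp _ (by omega)) (by
      have c := hq.c11 (E φ (j + 13)) (G φ (j + 13))
      have g1 := G_succ h3 (j + 13)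
      have e1 := E_succ (φ := φ) (j + 13)
      rw [← g1, ← e1] at c
      refine c.trans (le_of_eq ?_)
      congr 1
      · unfold E; push_cast; ring_nf
      · have : -2 * (φ ^ 2 - 1) * E φ (j + 13) - G φ (j + 13) = 2 * G φ (j + 13 + 1) - G φ (j + 13) := by
          rw [g1]; ring
        rw [this]; unfold G; push_cast; ring_nf)
    have := hc.1
    simp only [show j + 10 + 4 = j + 14 by ring, show j + 10 + 3 = j + 13 by ring] at this
    omega

/-- Six consecutive units are not all best. -/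
theorem chain {k : ℕ} (hk : 8 ≤ k)
    (hb : ∀ i < 6, BestQ φ q (P (k + i)) (P (k + i + 1)) (P (k + i + 2))) : False := by
  have l1 := lo h3
  have l3 := sq_lo h3
  have dec : ∀ i < 5, q (E φ (k + i + 1)) (G φ (k + i + 1)) < q (E φ (k + i)) (G φ (k + i)) := by
    intro i hi
    by_contra hcon
    push Not at hcon
    have hb1 := hb (i + 1) (by omega)
    have hs : P (k + i) < P (k + i + 1) := P_strict (by omega) (by omega)
    have hp : 0 < P (k + i) := by
      obtain ⟨k', hk'⟩ : ∃ k', k + i = k' + 4 := ⟨k + i - 4, by omega⟩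
      have := P_pos k'
      rw [hk']; omega
    have hc := cmp hb1 (by rw [← add_assoc]; omega) (m := k + i) (by rw [← add_assoc]; exact hs.le) hp hcon
    have := hc.1
    rw [← add_assoc] at this
    omega
  have pos : ∀ i < 5, 0 < E φ (k + i) * G φ (k + i) := by
    intro i hi
    by_contra hcon
    push Not at hcon
    have h1 := hq.same _ _ hcon
    have h2 := dec i hi
    rw [E_succ, G_succ h3] at h2
    linarith
  have sgn : ∀ i < 4, E φ (k + i + 1) * E φ (k + i) < 0 := by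
    intro i hi
    have h1 := pos (i + 1) (by omega)
    rw [← add_assoc, G_succ h3] at h1
    by_contra hcon
    push Not at hcon
    nlinarith [mul_nonneg (show 0 ≤ φ ^ 2 - 1 by linarith) hcon]
  have s0 := sgn 0 (by norm_num)
  have s1 := sgn 1 (by norm_num)
  have s2 := sgn 2 (by norm_num)
  have s3 := sgn 3 (by norm_num)
  have p0 := pos 0 (by norm_num)
  simp only [add_zero, add_assoc] at s0 s1 s2 s3 p0
  norm_num at s0 s1 s2 s3
  have e4 := E4 h3 k
  have hE4 : E φ (k + 4) * E φ k < 0 := by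
    rw [e4]
    nlinarith [sq_nonneg (E φ k), mul_pos (show 0 < φ - 1 by linarith) p0,
      mul_nonneg (show 0 ≤ φ - 1 by linarith) (sq_nonneg (E φ k))]
  rcases lt_trichotomy (E φ k) 0 with h | h | h
  · have a1 : 0 < E φ (k + 1) := by nlinarith
    have a2 : E φ (k + 2) < 0 := by nlinarith
    have a3 : 0 < E φ (k + 3) := by nlinarith
    have a4 : E φ (k + 4) < 0 := by nlinarith
    nlinarith
  · rw [h] at p0; simp at p0
  · have a1 : E φ (k + 1) < 0 := by nlinarith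
    have a2 : 0 < E φ (k + 2) := by nlinarith
    have a3 : E φ (k + 3) < 0 := by nlinarith
    have a4 : 0 < E φ (k + 4) := by nlinarith
    nlinarith

end

end Pool.Agent.Q3.BestPhi
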