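import Mathlib
import Pool.Agent.Q3.BestPhi.Growth
import Pool.Agent.Q3.BestPhi.Main

/-!
# A vector for which all large units are best approximations for all norms close to the Euclidean one
-/

set_option autoImplicit false

namespace Pool.Agent.Q3.BestPhi

theorem cls_NN {f : ℕ → ℤ} (hf : Cls f) (k : ℕ) :
    NN (f k) (f (k + 1)) (f (k + 2)) = NN (f 0) (f 1) (f 2) := by
  induction k with
  | zero => rfl
  | succ k ih =>
    rw [← ih, ← NN_shift (f (k + 1)), show k + 1 + 2 = k + 3 by ring, cls_rec hf k,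
      show f (k + 1) + f k - f (k + 1) = f k by ring]

theorem red1 {φ : ℝ} (h3 : φ ^ 3 = φ + 1) (k : ℕ) (x a b : ℤ) (h1 : 4 * φ ^ k ≤ ell φ x a b)
    (h2 : ell φ x a b < 4 * φ ^ (k + 1)) (hN : NN x a b = 1) :
    x = P (k + 4) ∧ a = P (k + 4 + 1) ∧ b = P (k + 4 + 2) := by
  obtain ⟨f, hf, e1, e2, e3⟩ := red h3 k x a b h1 h2 (by omega) (by omega)
  have hc := cls_NN hf k
  rw [← e1, ← e2, ← e3, hN] at hc
  rcases hf with rfl | rfl | rfl | rfl | rfl
  · refine ⟨e1, ?_, ?_⟩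
    · rw [e2]
    · rw [e3]
  all_goals exfalso; revert hc; decide

/-- the units in the new coordinates -/
def XX (k : ℕ) : ℤ := 5 * P k + 4 * P (k + 1) + 11 * P (k + 2)
/-- the units in the new coordinates -/
def AA (k : ℕ) : ℤ := P k + P (k + 1) + 3 * P (k + 2)
/-- the units in the new coordinates -/
def BB (k : ℕ) : ℤ := P k + P (k + 1) + 2 * P (k + 2)

/-- the denominator of the two coordinates of `Θ` -/
noncomputable def D (φ : ℝ) : ℝ := 5 + 4 * φ + 11 * φ ^ 2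
/-- the first coordinate of `Θ` -/
noncomputable def T1 (φ : ℝ) : ℝ := (1 + φ + 3 * φ ^ 2) / D φ
/-- the second coordinate of `Θ` -/
noncomputable def T2 (φ : ℝ) : ℝ := (1 + φ + 2 * φ ^ 2) / D φ

/-- old coordinates -/
def ox (X A B : ℤ) : ℤ := X - 3 * A - B
/-- old coordinates -/
def oa (X A B : ℤ) : ℤ := -X + A + 4 * B
/-- old coordinates -/
def ob (A B : ℤ) : ℤ := A - B

theorem ox_u (k : ℕ) : ox (XX k) (AA k) (BB k) = P k := by unfold ox XX AA BB; ring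
theorem oa_u (k : ℕ) : oa (XX k) (AA k) (BB k) = P (k + 1) := by unfold oa XX AA BB; ring
theorem ob_u (k : ℕ) : ob (AA k) (BB k) = P (k + 2) := by unfold ob AA BB; ring

theorem of_old {X A B : ℤ} {k : ℕ} (h1 : ox X A B = P k) (h2 : oa X A B = P (k + 1))
    (h3 : ob A B = P (k + 2)) : X = XX k ∧ A = AA k ∧ B = BB k := by
  unfold XX AA BB
  rw [← h1, ← h2, ← h3]
  unfold ox oa ob
  refine ⟨by ring, by ring, by ring⟩

theorem XX_strict {m n : ℕ} (hm : 8 ≤ m) (h : m < n) : XX m < XX n := by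
  have h1 := P_strict hm h
  have h2 := P_strict (show 8 ≤ m + 1 by omega) (show m + 1 < n + 1 by omega)
  have h3 := P_strict (show 8 ≤ m + 2 by omega) (show m + 2 < n + 2 by omega)
  unfold XX
  omega

theorem XX_pos (n : ℕ) (hn : 4 ≤ n) : 0 < XX n := by
  obtain ⟨k, rfl⟩ : ∃ k, n = k + 4 := ⟨n - 4, by omega⟩
  have h1 := P_pos k
  have h2 := P_nonneg (k + 4 + 1)
  have h3 := P_nonneg (k + 4 + 2)
  unfold XX
  omega

/-- the quadratic form in the new coordinates -/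
noncomputable def qq (φ e g : ℝ) : ℝ :=
  (4 * φ ^ 2 + 5 * φ + 3) * e ^ 2 + (6 * φ ^ 2 - 10 * φ + 3) * (e * g) + (15 * φ ^ 2 + φ - 11) * g ^ 2

section

variable {φ : ℝ} (h3 : φ ^ 3 = φ + 1)

include h3

theorem D_pos : 0 < D φ := by
  have := phi_pos h3
  unfold D
  positivity

theorem D_bd : 29 < D φ ∧ D φ < 30 := by
  have l1 := lo h3
  have l2 := hi h3
  have l3 := sq_lo h3
  have l4 := sq_hi h3
  unfold D
  constructor <;> linarith

theorem conv_e (X A B : ℤ) : φ * ox X A B - oa X A B =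
    (3 * φ + 1) * (X * T1 φ - A) + (φ + 4) * (X * T2 φ - B) := by
  have hD := (D_pos h3).ne'
  have h1 : D φ * T1 φ = 1 + φ + 3 * φ ^ 2 := by unfold T1; field_simp
  have h2 : D φ * T2 φ = 1 + φ + 2 * φ ^ 2 := by unfold T2; field_simp
  apply mul_left_cancel₀ hD
  unfold ox oa
  push_cast
  have hDe : D φ = 5 + 4 * φ + 11 * φ ^ 2 := rfl
  linear_combination (-(X : ℝ) * (3 * φ + 1)) * h1 - ((X : ℝ) * (φ + 4)) * h2 + (X * (φ + 1)) * hDe

theorem conv_g (X A B : ℤ) : φ ^ 2 * ox X A B - ob A B =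
    (3 * φ ^ 2 + 1) * (X * T1 φ - A) + (φ ^ 2 - 1) * (X * T2 φ - B) := by
  have hD := (D_pos h3).ne'
  have h1 : D φ * T1 φ = 1 + φ + 3 * φ ^ 2 := by unfold T1; field_simp
  have h2 : D φ * T2 φ = 1 + φ + 2 * φ ^ 2 := by unfold T2; field_simp
  apply mul_left_cancel₀ hD
  unfold ox ob
  push_cast
  have hDe : D φ = 5 + 4 * φ + 11 * φ ^ 2 := rfl
  linear_combination (-(X : ℝ) * (3 * φ ^ 2 + 1)) * h1 - ((X : ℝ) * (φ ^ 2 - 1)) * h2 + (X * φ ^ 2) * hDe

theorem Qf_qq (e g : ℝ) : Qf φ ((3 * φ + 1) * e + (φ + 4) * g) ((3 * φ ^ 2 + 1) * e + (φ ^ 2 - 1) * g) =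
    qq φ e g := by
  unfold Qf qq
  linear_combination ((9 * φ + 3) * e ^ 2 + (6 * φ + 13) * (e * g) + (φ + 4) * g ^ 2) * h3

theorem q_low (e g : ℝ) : 16.5 * (e ^ 2 + g ^ 2) ≤ qq φ e g := by
  have l1 := lo h3
  have l2 := hi h3
  have l3 := sq_lo h3
  have l4 := sq_hi h3
  have := psd 0.1429 0.2823 0.1474 (4 * φ ^ 2 + 5 * φ + 3 - 16.5) (6 * φ ^ 2 - 10 * φ + 3)
    (15 * φ ^ 2 + φ - 11 - 16.5) e g (by linarith) (by linarith) (by linarith) (by linarith)
    (by norm_num) (by norm_num) (by norm_num)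
  unfold qq
  linarith

theorem q_up (e g : ℝ) : qq φ e g ≤ 16.79 * (e ^ 2 + g ^ 2) := by
  have l1 := lo h3
  have l2 := hi h3
  have l3 := sq_lo h3
  have l4 := sq_hi h3
  have := psd 0.1468 0.2823 0.1419 (16.79 - (4 * φ ^ 2 + 5 * φ + 3)) (-(6 * φ ^ 2 - 10 * φ + 3))
    (16.79 - (15 * φ ^ 2 + φ - 11)) e g (by linarith) (by linarith) (by linarith) (by linarith)
    (by norm_num) (by norm_num) (by norm_num)
  unfold qq
  linarith

theorem ell_new (X A B : ℤ) : ell φ (ox X A B) (oa X A B) (ob A B) =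
    (3 + 2 * φ) / D φ * X - (φ ^ 2 + φ - 3) * (X * T1 φ - A) - (4 * φ ^ 2 - φ - 1) * (X * T2 φ - B) := by
  have hD := (D_pos h3).ne'
  have h1 : D φ * T1 φ = 1 + φ + 3 * φ ^ 2 := by unfold T1; field_simp
  have h2 : D φ * T2 φ = 1 + φ + 2 * φ ^ 2 := by unfold T2; field_simp
  have h4 : D φ * ((3 + 2 * φ) / D φ) = 3 + 2 * φ := by field_simp
  apply mul_left_cancel₀ hD
  unfold ell ox oa ob
  push_cast
  have hDe : D φ = 5 + 4 * φ + 11 * φ ^ 2 := rfl
  linear_combination (-(X : ℝ)) * h4 + ((X : ℝ) * (φ ^ 2 + φ - 3)) * h1 +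
    ((X : ℝ) * (4 * φ ^ 2 - φ - 1)) * h2 + ((X : ℝ) * (1 - φ ^ 2)) * hDe + (2 * (X : ℝ)) * h3

theorem q_u (k : ℕ) : qq φ (XX k * T1 φ - AA k) (XX k * T2 φ - BB k) * φ ^ k = 1 := by
  rw [← Q_P h3 k, ← Qf_qq h3, ← conv_e h3, ← conv_g h3, ox_u, oa_u, ob_u]
  rfl

theorem small_uv {K : ℕ} (hK : 40 ≤ K) {e g : ℝ} (h : qq φ e g * φ ^ K ≤ 1.3225) :
    |e| < 0.0013 ∧ |g| < 0.0013 := by
  have hb := big h3 hK
  have h1 := q_low h3 e g
  have h2 : qq φ e g ≤ 0.00002645 := by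
    by_contra hcon
    push Not at hcon
    nlinarith
  constructor
  · rw [abs_lt]; constructor <;> nlinarith [sq_nonneg e, sq_nonneg g]
  · rw [abs_lt]; constructor <;> nlinarith [sq_nonneg e, sq_nonneg g]

theorem coef_bd {e g : ℝ} (he : |e| < 0.0013) (hg : |g| < 0.0013) :
    |(φ ^ 2 + φ - 3) * e + (4 * φ ^ 2 - φ - 1) * g| < 0.01 := by
  have l1 := lo h3
  have l2 := hi h3
  have l3 := sq_lo h3
  have l4 := sq_hi h3
  have h1 : |(φ ^ 2 + φ - 3) * e| ≤ 0.0797 * 0.0013 := by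
    rw [abs_mul]
    apply mul_le_mul _ he.le (abs_nonneg _) (by norm_num)
    rw [abs_of_nonneg (by linarith)]
    linarith
  have h2 : |(4 * φ ^ 2 - φ - 1) * g| ≤ 4.7 * 0.0013 := by
    rw [abs_mul]
    apply mul_le_mul _ hg.le (abs_nonneg _) (by norm_num)
    rw [abs_of_nonneg (by linarith)]
    linarith
  have := abs_add_le ((φ ^ 2 + φ - 3) * e) ((4 * φ ^ 2 - φ - 1) * g)
  have h1' := h1.trans (show (0.0797 * 0.0013 : ℝ) ≤ 0.001 by norm_num)
  have h2' := h2.trans (show (4.7 * 0.0013 : ℝ) ≤ 0.007 by norm_num)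
  linarith

/-- the size of the units in the new coordinates -/
theorem XX_size {k : ℕ} (hk : 40 ≤ k) : |(3 + 2 * φ) / D φ * XX k - φ ^ (k + 1)| < 0.01 := by
  have h := ell_new h3 (XX k) (AA k) (BB k)
  rw [ox_u, oa_u, ob_u, ell_P h3] at h
  obtain ⟨s1, s2⟩ := small_uv h3 hk (le_of_eq_of_le (q_u h3 k) (by norm_num))
  have hc := coef_bd h3 s1 s2
  rw [h]
  convert hc using 2
  ring

theorem core {X A B : ℤ} {K : ℕ} (hK : 40 ≤ K) (hX0 : 0 < X) (hX : X < XX (K + 1))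
    (hq : (X * T1 φ - A) ^ 2 + (X * T2 φ - B) ^ 2 ≤
      1.2996 * ((XX K * T1 φ - AA K) ^ 2 + (XX K * T2 φ - BB K) ^ 2)) :
    ∃ j, K ≤ j ∧ X = XX j ∧ A = AA j ∧ B = BB j := by
  have l1 := lo h3
  have l2 := hi h3
  have l3 := sq_lo h3
  have l4 := sq_hi h3
  have hφ := phi_pos h3
  have hbig := big h3 hK
  obtain ⟨e, he⟩ : ∃ e : ℝ, e = X * T1 φ - A := ⟨_, rfl⟩
  obtain ⟨g, hg⟩ : ∃ g : ℝ, g = X * T2 φ - B := ⟨_, rfl⟩
  have hu := q_u h3 K
  have ulow := q_low h3 (XX K * T1 φ - AA K) (XX K * T2 φ - BB K)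
  have zup := q_up h3 e g
  have zlow := q_low h3 e g
  rw [← he, ← hg] at hq
  have hZ : qq φ e g * φ ^ K ≤ 1.3225 := by
    have h1 : qq φ e g ≤ 1.3225 * qq φ (XX K * T1 φ - AA K) (XX K * T2 φ - BB K) := by
      have : 0 ≤ (XX K * T1 φ - AA K) ^ 2 + (XX K * T2 φ - BB K) ^ 2 := by positivity
      nlinarith
    calc qq φ e g * φ ^ K ≤ 1.3225 * qq φ (XX K * T1 φ - AA K) (XX K * T2 φ - BB K) * φ ^ K := by
          gcongr
      _ = 1.3225 * (qq φ (XX K * T1 φ - AA K) (XX K * T2 φ - BB K) * φ ^ K) := by ring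
      _ = 1.3225 := by rw [hu, mul_one]
  obtain ⟨s1, s2⟩ := small_uv h3 hK hZ
  have hc := coef_bd h3 s1 s2
  have hell := ell_new h3 X A B
  rw [← he, ← hg] at hell
  have hsz := XX_size h3 (show 40 ≤ K + 1 by omega)
  rw [abs_lt] at hc hsz
  have hDb := D_bd h3
  have hlam : 0 < (3 + 2 * φ) / D φ := by have := D_pos h3; positivity
  have hlam2 : 0.1 ≤ (3 + 2 * φ) / D φ := by
    rw [le_div_iff₀ (D_pos h3)]; linarith
  have X1 : (1 : ℝ) ≤ X := by exact_mod_cast hX0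
  have X2 : (X : ℝ) ≤ XX (K + 1) := by exact_mod_cast hX.le
  have y1 : (3 + 2 * φ) / D φ * X ≤ (3 + 2 * φ) / D φ * XX (K + 1) := mul_le_mul_of_nonneg_left X2 hlam.le
  have y2 : (3 + 2 * φ) / D φ * 1 ≤ (3 + 2 * φ) / D φ * X := mul_le_mul_of_nonneg_left X1 hlam.le
  have up : ell φ (ox X A B) (oa X A B) (ob A B) ≤ φ ^ (K + 1 + 1) + 0.02 := by linarith
  have dn : 0 < ell φ (ox X A B) (oa X A B) (ob A B) := by linarith
  -- the product
  have hm := ell_mul h3 (ox X A B) (oa X A B) (ob A B)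
  rw [conv_e h3, conv_g h3, Qf_qq h3, ← he, ← hg] at hm
  have hZpos : 0 < qq φ e g := by
    by_contra hcon
    push Not at hcon
    have e0 : e = 0 := by nlinarith [sq_nonneg e, sq_nonneg g]
    have g0 : g = 0 := by nlinarith [sq_nonneg e, sq_nonneg g]
    have c1 := conv_e h3 X A B
    have c2 := conv_g h3 X A B
    rw [← he, ← hg, e0, g0, mul_zero, mul_zero, add_zero] at c1 c2
    have z1 : ox X A B = 0 := by
      by_contra hx
      exact irr h3 _ _ hx c1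
    rw [z1, Int.cast_zero, mul_zero, zero_sub, neg_eq_zero] at c1 c2
    have z2 : oa X A B = 0 := by exact_mod_cast c1
    have z3 : ob A B = 0 := by exact_mod_cast c2
    unfold ox at z1
    unfold oa at z2
    unfold ob at z3
    omega
  have hNpos : 0 < NN (ox X A B) (oa X A B) (ob A B) := by
    have h5 : 0 < φ * (NN (ox X A B) (oa X A B) (ob A B) : ℝ) := by rw [← hm]; positivity
    have h6 : (0 : ℝ) < NN (ox X A B) (oa X A B) (ob A B) := by
      by_contra hcon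
      push Not at hcon
      nlinarith
    exact_mod_cast h6
  have hN1 : NN (ox X A B) (oa X A B) (ob A B) = 1 := by
    by_contra hne
    have h2 : (2 : ℝ) ≤ NN (ox X A B) (oa X A B) (ob A B) := by
      have : 2 ≤ NN (ox X A B) (oa X A B) (ob A B) := by omega
      exact_mod_cast this
    have h4 : φ * 2 ≤ ell φ (ox X A B) (oa X A B) (ob A B) * qq φ e g := by rw [hm]; nlinarith
    have h5 : ell φ (ox X A B) (oa X A B) (ob A B) * qq φ e g ≤ (φ ^ (K + 1 + 1) + 0.02) * qq φ e g := by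
      gcongr
    have h6 : (φ ^ (K + 1 + 1) + 0.02) * qq φ e g = φ ^ 2 * (qq φ e g * φ ^ K) + 0.02 * qq φ e g := by ring
    have h7 : qq φ e g ≤ 0.001 := by nlinarith
    nlinarith
  have hmul1 : ell φ (ox X A B) (oa X A B) (ob A B) * qq φ e g = φ := by
    rw [hm, hN1]; simp
  have hbigell : φ ^ K < ell φ (ox X A B) (oa X A B) (ob A B) := by
    by_contra hcon
    push Not at hcon
    have : ell φ (ox X A B) (oa X A B) (ob A B) * qq φ e g ≤ φ ^ K * qq φ e g := by gcongr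
    nlinarith
  obtain ⟨k, hk1, hk2⟩ := exists_nat_pow_near (x := ell φ (ox X A B) (oa X A B) (ob A B) / 4) (y := φ)
    (by linarith) (by linarith)
  obtain ⟨r1, r2, r3⟩ := red1 h3 k _ _ _ (by linarith) (by linarith) hN1
  obtain ⟨f1, f2, f3⟩ := of_old r1 r2 r3
  refine ⟨k + 4, ?_, f1, f2, f3⟩
  rw [r1, r2, r3, ell_P h3] at hbigell
  have := (pow_lt_pow_iff_right₀ (by linarith : 1 < φ)).1 hbigell
  omega

end

end Pool.Agent.Q3.BestPhi
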