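import Mathlib
import Pool.Agent.Q3.BestPhi.Main
import Pool.Agent.Q3.BestPhi.Growth

/-!
# Infinitely many best approximations, and the growth theorem
-/

set_option autoImplicit false

open Filter

namespace Pool.Agent.Q3.BestPhi

section

variable {φ : ℝ} (h3 : φ ^ 3 = φ + 1) {q : ℝ → ℝ → ℝ} {α β : ℝ} (hq : GoodQ φ q α β)

include hq in
theorem best_neg {x a b : ℤ} (hb : BestQ φ q x a b) : BestQ φ q (-x) (-a) (-b) := by
  refine ⟨fun h => hb.1 ⟨by omega, by omega, by omega⟩, fun x' a' b' h1 h2 => ?_⟩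
  rw [abs_neg] at h1
  have e : q (φ * ((-x : ℤ) : ℝ) - ((-a : ℤ) : ℝ)) (φ ^ 2 * ((-x : ℤ) : ℝ) - ((-b : ℤ) : ℝ)) =
      q (φ * x - a) (φ ^ 2 * x - b) := by
    rw [← hq.neg (φ * x - a)]
    congr 1 <;> · push_cast; ring
  rw [e] at h2
  rcases hb.2 x' a' b' h1 h2 with h | h | h
  · left; exact h
  · right; right; omega
  · right; left; omega

include h3 hq

theorem small_of_le {k : ℕ} (hk : 40 ≤ k) {e g : ℝ} (h : q e g ≤ q (E φ k) (G φ k)) :
    Qf φ e g * φ ^ k ≤ 9.78 := by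
  have e1 := hq.low e g
  have e2 := hq.up (E φ k) (G φ k)
  have e3 := Q_P h3 k
  have e4 := hq.prod
  have e5 := hq.alpha
  have hφK : 0 < φ ^ k := pow_pos (phi_pos h3) k
  have e6 : Qf φ e g ≤ α * (β * Qf φ (E φ k) (G φ k)) :=
    e1.trans (mul_le_mul_of_nonneg_left (h.trans e2) e5.le)
  calc Qf φ e g * φ ^ k ≤ α * (β * Qf φ (E φ k) (G φ k)) * φ ^ k := by gcongr
    _ = (α * β) * (Qf φ (E φ k) (G φ k) * φ ^ k) := by ring
    _ = α * β := by rw [e3, mul_one]
    _ ≤ 9.78 := e4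

theorem exists_best (X : ℕ) : ∃ x a b : ℤ, (X : ℤ) < x ∧ BestQ φ q x a b := by
  classical
  have l1 := lo h3
  have l2 := hi h3
  have l3 := sq_lo h3
  have l4 := sq_hi h3
  -- a large index
  have hev := (tendsto_pow_atTop_atTop_of_one_lt (show (1 : ℝ) < φ by linarith)).eventually_ge_atTop
    (100 * ((X : ℝ) + 1))
  obtain ⟨k, hkX, hk⟩ := (hev.and (Filter.eventually_ge_atTop 40)).exists
  have hPk : 0 < P k := by
    obtain ⟨k', rfl⟩ : ∃ k', k = k' + 4 := ⟨k - 4, by omega⟩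
    have := P_pos k'
    omega
  -- closeness
  have hsm : ∀ x a b : ℤ, q (φ * x - a) (φ ^ 2 * x - b) ≤ q (E φ k) (G φ k) →
      |φ * x - a| < 0.03 ∧ |φ ^ 2 * x - b| < 0.03 := fun x a b h =>
    small_eg h3 hk (small_of_le h3 hq hk h)
  obtain ⟨F, hF⟩ : ∃ F : Finset (ℤ × ℤ × ℤ), F = ((Finset.Icc (-P k) (P k)) ×ˢ
    (Finset.Icc (-(2 * P k + 1)) (2 * P k + 1)) ×ˢ (Finset.Icc (-(2 * P k + 1)) (2 * P k + 1))).filter
    (fun z => ¬ (z.1 = 0 ∧ z.2.1 = 0 ∧ z.2.2 = 0) ∧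
      q (φ * z.1 - z.2.1) (φ ^ 2 * z.1 - z.2.2) ≤ q (E φ k) (G φ k)) := ⟨_, rfl⟩
  have hmem : ∀ x a b : ℤ, |x| ≤ P k → ¬ (x = 0 ∧ a = 0 ∧ b = 0) →
      q (φ * x - a) (φ ^ 2 * x - b) ≤ q (E φ k) (G φ k) → (x, a, b) ∈ F := by
    intro x a b h1 h2 h4
    obtain ⟨s1, s2⟩ := hsm x a b h4
    rw [abs_lt] at s1 s2
    rw [abs_le] at h1
    have x1 : (x : ℝ) ≤ P k := by exact_mod_cast h1.2
    have x2 : -(P k : ℝ) ≤ x := by exact_mod_cast h1.1
    have hPr : (0 : ℝ) < P k := by exact_mod_cast hPk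
    have a1 : (a : ℝ) < 2 * P k + 2 := by nlinarith
    have a2 : -(2 * (P k : ℝ) + 2) < a := by nlinarith
    have b1 : (b : ℝ) < 2 * P k + 2 := by nlinarith
    have b2 : -(2 * (P k : ℝ) + 2) < b := by nlinarith
    have a1' : a < 2 * P k + 2 := by exact_mod_cast a1
    have a2' : -(2 * P k + 2) < a := by exact_mod_cast a2
    have b1' : b < 2 * P k + 2 := by exact_mod_cast b1
    have b2' : -(2 * P k + 2) < b := by exact_mod_cast b2
    rw [hF, Finset.mem_filter, Finset.mem_product, Finset.mem_product, Finset.mem_Icc,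
      Finset.mem_Icc, Finset.mem_Icc]
    exact ⟨⟨⟨h1.1, h1.2⟩, ⟨by simp only; omega, by simp only; omega⟩, ⟨by simp only; omega, by simp only; omega⟩⟩, h2, h4⟩
  have hFne : F.Nonempty := ⟨(P k, P (k + 1), P (k + 2)), hmem _ _ _ (by rw [abs_of_pos hPk])
    (by omega) (by unfold E G; exact le_rfl)⟩
  obtain ⟨z1, hz1, hz1m⟩ := Finset.exists_min_image F
    (fun z => q (φ * z.1 - z.2.1) (φ ^ 2 * z.1 - z.2.2)) hFne
  obtain ⟨z2, hz2, hz2m⟩ := Finset.exists_min_image (F.filter fun z =>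
    q (φ * z.1 - z.2.1) (φ ^ 2 * z.1 - z.2.2) = q (φ * z1.1 - z1.2.1) (φ ^ 2 * z1.1 - z1.2.2))
    (fun z => |z.1|) ⟨z1, by rw [Finset.mem_filter]; exact ⟨hz1, rfl⟩⟩
  obtain ⟨x, a, b⟩ := z2
  rw [Finset.mem_filter] at hz2
  obtain ⟨hz2F, hz2q⟩ := hz2
  simp only at hz2q
  have hz2F' := hz2F
  rw [hF, Finset.mem_filter, Finset.mem_product, Finset.mem_Icc] at hz2F'
  obtain ⟨⟨⟨hx1, hx2⟩, _⟩, hne, hqle⟩ := hz2F'
  simp only at hx1 hx2 hne hqle
  obtain ⟨s1, s2⟩ := hsm x a b hqle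
  have hQ := small_of_le h3 hq hk hqle
  have hbest : BestQ φ q x a b := by
    refine ⟨hne, fun x' a' b' h1 h2 => ?_⟩
    by_cases h0 : x' = 0 ∧ a' = 0 ∧ b' = 0
    · left; exact h0
    right
    have hle := h2.trans hqle
    have hin := hmem x' a' b' (h1.trans (abs_le.2 ⟨hx1, hx2⟩)) h0 hle
    have h4 := hz1m _ hin
    simp only at h4
    have heq : q (φ * x' - a') (φ ^ 2 * x' - b') = q (φ * z1.1 - z1.2.1) (φ ^ 2 * z1.1 - z1.2.2) :=
      le_antisymm (h2.trans hz2q.le) h4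
    have h5 := hz2m (x', a', b') (by rw [Finset.mem_filter]; exact ⟨hin, heq⟩)
    simp only at h5
    have habs : |x'| = |x| := le_antisymm h1 h5
    obtain ⟨s3, s4⟩ := hsm x' a' b' hle
    rw [abs_lt] at s1 s2 s3 s4
    rcases abs_eq_abs.1 habs with h | h
    · left
      subst h
      have c1 : ((a' - a : ℤ) : ℝ) < 1 := by push_cast; linarith
      have c2 : (-1 : ℝ) < ((a' - a : ℤ) : ℝ) := by push_cast; linarith
      have c3 : ((b' - b : ℤ) : ℝ) < 1 := by push_cast; linarith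
      have c4 : (-1 : ℝ) < ((b' - b : ℤ) : ℝ) := by push_cast; linarith
      have c1' : a' - a < 1 := by exact_mod_cast c1
      have c2' : -1 < a' - a := by exact_mod_cast c2
      have c3' : b' - b < 1 := by exact_mod_cast c3
      have c4' : -1 < b' - b := by exact_mod_cast c4
      exact ⟨rfl, by omega, by omega⟩
    · right
      subst h
      push_cast at s3 s4
      have c1 : ((a' + a : ℤ) : ℝ) < 1 := by push_cast; linarith
      have c2 : (-1 : ℝ) < ((a' + a : ℤ) : ℝ) := by push_cast; linarith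
      have c3 : ((b' + b : ℤ) : ℝ) < 1 := by push_cast; linarith
      have c4 : (-1 : ℝ) < ((b' + b : ℤ) : ℝ) := by push_cast; linarith
      have c1' : a' + a < 1 := by exact_mod_cast c1
      have c2' : -1 < a' + a := by exact_mod_cast c2
      have c3' : b' + b < 1 := by exact_mod_cast c3
      have c4' : -1 < b' + b := by exact_mod_cast c4
      exact ⟨rfl, by omega, by omega⟩
  have hx0 : x ≠ 0 := by
    rintro rfl
    rw [abs_lt] at s1 s2
    push_cast at s1 s2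
    have c1 : (a : ℝ) < 1 := by linarith
    have c2 : (-1 : ℝ) < a := by linarith
    have c3 : (b : ℝ) < 1 := by linarith
    have c4 : (-1 : ℝ) < b := by linarith
    have c1' : a < 1 := by exact_mod_cast c1
    have c2' : -1 < a := by exact_mod_cast c2
    have c3' : b < 1 := by exact_mod_cast c3
    have c4' : -1 < b := by exact_mod_cast c4
    exact hne ⟨rfl, by omega, by omega⟩
  -- the size of a positive one
  have hsize : ∀ x a b : ℤ, 0 < x → Qf φ (φ * x - a) (φ ^ 2 * x - b) * φ ^ k ≤ 9.78 → (X : ℤ) < x := by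
    intro x a b hx hQ
    by_contra hcon
    push Not at hcon
    obtain ⟨e, he⟩ : ∃ e : ℝ, e = φ * x - a := ⟨_, rfl⟩
    obtain ⟨g, hg⟩ : ∃ g : ℝ, g = φ ^ 2 * x - b := ⟨_, rfl⟩
    have hm := ell_mul h3 x a b
    have hl := ell_eq h3 x a b
    rw [← he, ← hg] at hQ hm hl
    obtain ⟨s1, s2⟩ := small_eg h3 hk hQ
    rw [abs_lt] at s1 s2
    have hxr : (1 : ℝ) ≤ x := by exact_mod_cast hx
    have hxX : (x : ℝ) ≤ X := by exact_mod_cast hcon
    have t1 : φ ^ 2 * e ≤ 0.06 := by nlinarith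
    have t2 : -0.06 ≤ φ ^ 2 * e := by nlinarith
    have t3 : φ * g ≤ 0.04 := by nlinarith
    have t4 : -0.04 ≤ φ * g := by nlinarith
    have e1 : 0 < ell φ x a b := by rw [hl]; nlinarith
    have e2 : ell φ x a b ≤ 5.65 * X + 0.1 := by rw [hl]; nlinarith
    have he0 : e ≠ 0 := by rw [he]; exact irr h3 x a (by omega)
    have hQpos := Q_pos h3 e g he0
    have h5 : 0 < φ * (NN x a b : ℝ) := by rw [← hm]; positivity
    have h6 : (0 : ℝ) < NN x a b := by
      by_contra hcon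
      push Not at hcon
      nlinarith
    have h7 : 0 < NN x a b := by exact_mod_cast h6
    have h8 : (1 : ℝ) ≤ NN x a b := by exact_mod_cast h7
    have h9 : φ ≤ ell φ x a b * Qf φ e g := by rw [hm]; nlinarith
    have hφk : 0 < φ ^ k := pow_pos (by linarith) k
    have h10 : φ * φ ^ k ≤ (5.65 * X + 0.1) * 9.78 := by
      calc φ * φ ^ k ≤ (ell φ x a b * Qf φ e g) * φ ^ k := by gcongr
        _ = ell φ x a b * (Qf φ e g * φ ^ k) := by ring
        _ ≤ (5.65 * X + 0.1) * 9.78 := by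
          apply mul_le_mul e2 hQ (by positivity) (by positivity)
    nlinarith
  rcases lt_or_gt_of_ne hx0 with h | h
  · refine ⟨-x, -a, -b, hsize (-x) (-a) (-b) (by omega) ?_, best_neg hq hbest⟩
    refine le_trans (le_of_eq ?_) hQ
    congr 1
    unfold Qf
    push_cast
    ring
  · exact ⟨x, a, b, hsize x a b h hQ, hbest⟩

/-- **Growth of the best denominators.** -/
theorem main : {M : ℕ | ∃ a b : ℤ, BestQ φ q M a b}.Infinite ∧
    ((7 / 5 : ℝ) : EReal) ≤ liminf (fun ν : ℕ => (((((Nat.nth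
      (fun M : ℕ => ∃ a b : ℤ, BestQ φ q M a b) ν : ℕ) : ℝ) ^ (1 / ((ν : ℝ) + 1))) : ℝ) : EReal)) atTop := by
  obtain ⟨B, hB⟩ : ∃ B : Set ℕ, B = {M : ℕ | ∃ a b : ℤ, BestQ φ q M a b} := ⟨_, rfl⟩
  have hinf : B.Infinite := by
    rw [Set.infinite_iff_exists_gt]
    intro X
    obtain ⟨x, a, b, hx, hb⟩ := exists_best h3 hq X
    obtain ⟨M, rfl⟩ := Int.eq_ofNat_of_zero_le (show 0 ≤ x by omega)
    refine ⟨M, ?_, by exact_mod_cast hx⟩
    rw [hB]
    exact ⟨a, b, hb⟩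
  have h40 : 0 ≤ P 40 := P_nonneg 40
  have hU' : ∀ M : ℕ, (P 40).toNat ≤ M → ∀ a b : ℤ, BestQ φ q M a b →
      ∃ k, 8 ≤ k ∧ (M : ℤ) = P k ∧ a = P (k + 1) ∧ b = P (k + 2) := by
    intro M hM a b hb
    obtain ⟨K, hK, h1, h2⟩ := exists_K (M : ℤ) (by omega)
    exact unit_of_best h3 hq hb hK h1 h2
  have hg := growth h3 B hinf (P 40).toNat (by
      intro M hM hM0
      rw [hB] at hM
      obtain ⟨a, b, hb⟩ := hM
      obtain ⟨k, hk, e, _⟩ := hU' M hM0 a b hb
      exact ⟨k, hk, e⟩) (by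
      intro k hk hMk hall
      refine chain h3 hq hk ?_
      intro i hi
      obtain ⟨M, hM, e⟩ := hall i hi
      rw [hB] at hM
      obtain ⟨a, b, hb⟩ := hM
      have hmono : P k ≤ P (k + i) := P_mono (by omega) (by omega)
      obtain ⟨k', hk', e', ea, eb⟩ := hU' M (by omega) a b hb
      have hkk : k' = k + i := by
        rcases lt_trichotomy k' (k + i) with h | h | h
        · have := P_strict hk' h; omega
        · exact h
        · have := P_strict (show 8 ≤ k + i by omega) h; omega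
      subst hkk
      rw [ea, eb, e] at hb
      exact hb)
  refine ⟨by rw [← hB]; exact hinf, ?_⟩
  have := liminf_ge h3 _ hg
  rw [hB] at this
  exact this

end

end Pool.Agent.Q3.BestPhi
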