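import Mathlib
import Pool.Agent.Q3.BestPhi.Euc

/-!
# The best approximations to `(T1, T2)` for norms close to the Euclidean one
-/

set_option autoImplicit false

open Filter

namespace Pool.Agent.Q3.BestPhi

/-- `N v ≤ N w` implies that the Euclidean length of `v` is at most `1.14` times that of `w`. -/
def Near (N : ℝ × ℝ → ℝ) : Prop :=
  ∀ e g e' g' : ℝ, N (e, g) ≤ N (e', g') → e ^ 2 + g ^ 2 ≤ 1.2996 * (e' ^ 2 + g' ^ 2)

/-- best approximation vectors to `(θ₁, θ₂)` -/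
def BestN (N : ℝ × ℝ → ℝ) (θ₁ θ₂ : ℝ) (X A B : ℤ) : Prop :=
  X ≠ 0 ∧ ∀ X' A' B' : ℤ, |X'| ≤ |X| →
    N (X' * θ₁ - A', X' * θ₂ - B') ≤ N (X * θ₁ - A, X * θ₂ - B) →
    (X' = 0 ∧ A' = 0 ∧ B' = 0) ∨ (X' = X ∧ A' = A ∧ B' = B) ∨ (X' = -X ∧ A' = -A ∧ B' = -B)

section

variable {φ : ℝ} (h3 : φ ^ 3 = φ + 1) {N : ℝ × ℝ → ℝ} (hN : Near N)

include h3 hN

theorem best_unit {k : ℕ} (hk : 40 ≤ k) : BestN N (T1 φ) (T2 φ) (XX k) (AA k) (BB k) := by
  have hpos := XX_pos k (by omega)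
  refine ⟨hpos.ne', fun X' A' B' h1 h2 => ?_⟩
  have hq := hN _ _ _ _ h2
  rw [abs_of_pos hpos] at h1
  have hlt := XX_strict (show 8 ≤ k by omega) (show k < k + 1 by omega)
  have key : ∀ X A B : ℤ, 0 < X → X ≤ XX k → (X * T1 φ - A) ^ 2 + (X * T2 φ - B) ^ 2 ≤
      1.2996 * ((XX k * T1 φ - AA k) ^ 2 + (XX k * T2 φ - BB k) ^ 2) →
      X = XX k ∧ A = AA k ∧ B = BB k := by
    intro X A B h0 hX hq
    obtain ⟨j, hj, e1, e2, e3⟩ := core h3 hk h0 (by omega) hq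
    rcases Nat.eq_or_lt_of_le hj with h | h
    · subst h; exact ⟨e1, e2, e3⟩
    · have := XX_strict (show 8 ≤ k by omega) h
      omega
  rcases lt_trichotomy X' 0 with h | h | h
  · right; right
    rw [abs_of_neg h] at h1
    obtain ⟨e1, e2, e3⟩ := key (-X') (-A') (-B') (by omega) h1 (by
      push_cast
      calc (-(X' : ℝ) * T1 φ - -(A' : ℝ)) ^ 2 + (-(X' : ℝ) * T2 φ - -(B' : ℝ)) ^ 2
          = (X' * T1 φ - A') ^ 2 + (X' * T2 φ - B') ^ 2 := by ring
        _ ≤ _ := hq)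
    refine ⟨by omega, by omega, by omega⟩
  · left
    subst h
    obtain ⟨s1, s2⟩ := small_uv h3 hk (le_of_eq_of_le (q_u h3 k) (by norm_num))
    have t1 : (XX k * T1 φ - AA k) ^ 2 ≤ 0.0013 ^ 2 := by
      rw [← sq_abs]; exact pow_le_pow_left₀ (abs_nonneg _) s1.le 2
    have t2 : (XX k * T2 φ - BB k) ^ 2 ≤ 0.0013 ^ 2 := by
      rw [← sq_abs]; exact pow_le_pow_left₀ (abs_nonneg _) s2.le 2
    have t3 : (A' : ℝ) ^ 2 + (B' : ℝ) ^ 2 < 1 := by
      have : (((0 : ℤ) : ℝ) * T1 φ - A') ^ 2 + (((0 : ℤ) : ℝ) * T2 φ - B') ^ 2 = (A' : ℝ) ^ 2 + (B' : ℝ) ^ 2 := by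
        push_cast; ring
      rw [this] at hq
      norm_num at t1 t2 hq
      nlinarith
    have t4 : A' ^ 2 + B' ^ 2 < 1 := by exact_mod_cast t3
    refine ⟨rfl, ?_, ?_⟩ <;> nlinarith [sq_nonneg A', sq_nonneg B']
  · right; left
    rw [abs_of_pos h] at h1
    exact key X' A' B' h h1 hq

theorem unit_of_best_near {X A B : ℤ} (hb : BestN N (T1 φ) (T2 φ) X A B) {K : ℕ} (hK : 40 ≤ K)
    (h1 : XX K ≤ X) (h2 : X < XX (K + 1)) : X = XX K ∧ A = AA K ∧ B = BB K := by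
  have hpos := XX_pos K (by omega)
  have hX0 : 0 < X := by omega
  by_cases h : N (XX K * T1 φ - AA K, XX K * T2 φ - BB K) ≤ N (X * T1 φ - A, X * T2 φ - B)
  · rcases hb.2 (XX K) (AA K) (BB K) (by rw [abs_of_pos hpos, abs_of_pos hX0]; exact h1) h with
      ⟨e, _⟩ | ⟨e1, e2, e3⟩ | ⟨e, _⟩
    · omega
    · exact ⟨e1.symm, e2.symm, e3.symm⟩
    · omega
  · push Not at h
    obtain ⟨j, hj, e1, e2, e3⟩ := core h3 hK hX0 h2 (hN _ _ _ _ h.le)
    rcases Nat.eq_or_lt_of_le hj with h' | h'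
    · subst h'; exact ⟨e1, e2, e3⟩
    · exfalso
      rcases Nat.eq_or_lt_of_le (Nat.succ_le_of_lt h') with h'' | h''
      · rw [Nat.succ_eq_add_one] at h''; rw [h''] at h2; omega
      · have := XX_strict (show 8 ≤ K + 1 by omega) h''
        omega

omit h3 hN in
theorem exists_KX (X : ℤ) (hx : XX 40 ≤ X) : ∃ K, 40 ≤ K ∧ XX K ≤ X ∧ X < XX (K + 1) := by
  have hge : ∀ n : ℕ, (n : ℤ) ≤ XX (n + 8) := by
    intro n
    have h1 := P_ge n
    have h2 := P_nonneg (n + 8 + 1)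
    have h3 := P_nonneg (n + 8 + 2)
    have h4 := P_nonneg (n + 8)
    unfold XX
    omega
  have hex : ∃ n, 40 ≤ n ∧ X < XX (n + 1) := by
    refine ⟨X.toNat + 40, by omega, ?_⟩
    have h1 := hge (X.toNat + 33)
    rw [show X.toNat + 33 + 8 = X.toNat + 40 + 1 by ring] at h1
    push_cast at h1
    omega
  classical
  obtain ⟨n, hn⟩ : ∃ n, n = Nat.find hex := ⟨_, rfl⟩
  have h1 := Nat.find_spec hex
  rw [← hn] at h1
  refine ⟨n, h1.1, ?_, h1.2⟩
  rcases Nat.eq_or_lt_of_le h1.1 with h | h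
  · rw [← h]; exact hx
  · have h2 := Nat.find_min hex (m := n - 1) (by omega)
    push Not at h2
    have h4 := h2 (by omega)
    rwa [Nat.sub_add_cancel (by omega)] at h4

end

/-- If the set `p` consists, from `X k₀` on, of the terms of the increasing sequence `X k`, then the
enumeration of `p` is a shift of `X`. -/
theorem nth_shift (p : ℕ → Prop) [DecidablePred p] (Y : ℕ → ℕ) (k₀ : ℕ) (hY : ∀ k, k₀ ≤ k → Y k < Y (k + 1))
    (hp : ∀ k, k₀ ≤ k → p (Y k)) (hq : ∀ k, k₀ ≤ k → ∀ m, Y k < m → m < Y (k + 1) → ¬ p m) (i : ℕ) :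
    Nat.nth p (Nat.count p (Y k₀) + i) = Y (k₀ + i) := by
  have hcount : ∀ i, Nat.count p (Y (k₀ + i)) = Nat.count p (Y k₀) + i := by
    intro i
    induction i with
    | zero => rfl
    | succ i ih =>
      have key : ∀ d, Y (k₀ + i) + 1 + d ≤ Y (k₀ + i + 1) →
          Nat.count p (Y (k₀ + i) + 1 + d) = Nat.count p (Y (k₀ + i)) + 1 := by
        intro d
        induction d with
        | zero =>
          intro _
          rw [add_zero, Nat.count_succ, if_pos (hp _ (by omega))]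
        | succ d ihd =>
          intro hd
          rw [show Y (k₀ + i) + 1 + (d + 1) = (Y (k₀ + i) + 1 + d) + 1 by ring, Nat.count_succ,
            if_neg (hq (k₀ + i) (by omega) _ (by omega) (by omega)), add_zero]
          exact ihd (by omega)
      have h1 := hY (k₀ + i) (by omega)
      have h2 := key (Y (k₀ + i + 1) - (Y (k₀ + i) + 1)) (by omega)
      rw [show Y (k₀ + i) + 1 + (Y (k₀ + i + 1) - (Y (k₀ + i) + 1)) = Y (k₀ + i + 1) by omega] at h2
      rw [← add_assoc, h2, ih]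
      ring
  rw [← hcount i]
  exact Nat.nth_count (hp _ (by omega))

end Pool.Agent.Q3.BestPhi
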