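import Mathlib
import Pool.Agent.Q3.BestPhi.Near

/-!
# Limits of roots, linear independence of `1`, `T1`, `T2`
-/

set_option autoImplicit false

open Filter Topology

namespace Pool.Agent.Q3.BestPhi

theorem root_tendsto {φ c₁ c₂ : ℝ} (hφ : 0 < φ) (h1 : 0 < c₁) (h2 : 0 < c₂) (m : ℕ → ℝ)
    (h : ∀ᶠ ν : ℕ in atTop, c₁ * φ ^ ν ≤ m ν ∧ m ν ≤ c₂ * φ ^ ν) :
    Tendsto (fun ν : ℕ => m ν ^ (1 / (ν : ℝ))) atTop (𝓝 φ) := by
  have key : ∀ c : ℝ, 0 < c → Tendsto (fun ν : ℕ => (c * φ ^ ν) ^ (1 / (ν : ℝ))) atTop (𝓝 φ) := by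
    intro c hc
    have h3 : Tendsto (fun ν : ℕ => c ^ (1 / (ν : ℝ))) atTop (𝓝 1) := by
      have := (tendsto_const_nhds (x := c) (f := (atTop : Filter ℕ))).rpow
        tendsto_one_div_atTop_nhds_zero_nat (Or.inl hc.ne')
      rwa [Real.rpow_zero] at this
    have h4 : Tendsto (fun ν : ℕ => c ^ (1 / (ν : ℝ)) * φ) atTop (𝓝 (1 * φ)) :=
      h3.mul tendsto_const_nhds
    rw [one_mul] at h4
    apply h4.congr'
    filter_upwards [eventually_gt_atTop 0] with ν hν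
    rw [Real.mul_rpow hc.le (by positivity)]
    congr 1
    rw [one_div]
    exact (Real.pow_rpow_inv_natCast hφ.le hν.ne').symm
  apply tendsto_of_tendsto_of_tendsto_of_le_of_le' (key c₁ h1) (key c₂ h2)
  · filter_upwards [h] with ν hν
    exact Real.rpow_le_rpow (by positivity) hν.1 (by positivity)
  · filter_upwards [h] with ν hν
    exact Real.rpow_le_rpow (le_trans (by positivity) hν.1) hν.2 (by positivity)

section

variable {φ : ℝ} (h3 : φ ^ 3 = φ + 1)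

include h3

theorem indep (u v w : ℤ) (h : (u : ℝ) + v * φ + w * φ ^ 2 = 0) : u = 0 ∧ v = 0 ∧ w = 0 := by
  have hw : w = 0 := by
    by_contra hw
    have hwr : (w : ℝ) ≠ 0 := by exact_mod_cast hw
    have k1 : φ * ((v ^ 2 - u * w - w ^ 2 : ℤ) : ℝ) - ((w ^ 2 - u * v : ℤ) : ℝ) = 0 := by
      push_cast
      linear_combination ((v : ℝ) - w * φ) * h + (w : ℝ) ^ 2 * h3
    have k2 : v ^ 2 - u * w - w ^ 2 = 0 := by
      by_contra hne
      exact irr h3 _ _ hne k1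
    rw [k2, Int.cast_zero, mul_zero, zero_sub, neg_eq_zero] at k1
    have k3 : w ^ 2 - u * v = 0 := by exact_mod_cast k1
    have k4 : (v : ℝ) ^ 3 = v * w ^ 2 + w ^ 3 := by
      have : v ^ 3 = v * w ^ 2 + w ^ 3 := by linear_combination v * k2 - w * k3
      exact_mod_cast this
    have k5 : ((v : ℝ) / w) ^ 3 = (v : ℝ) / w + 1 := by
      field_simp
      linarith
    refine irr k5 w v hw ?_
    field_simp
    ring
  rw [hw, Int.cast_zero, zero_mul, add_zero] at h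
  have hv : v = 0 := by
    by_contra hv
    refine irr h3 v (-u) hv ?_
    push_cast
    linarith
  rw [hv, Int.cast_zero, zero_mul, add_zero] at h
  exact ⟨by exact_mod_cast h, hv, hw⟩

theorem indepT (p q r : ℤ) (h : (p : ℝ) + q * T1 φ + r * T2 φ = 0) : p = 0 ∧ q = 0 ∧ r = 0 := by
  have hD := (D_pos h3).ne'
  have h1 : D φ * T1 φ = 1 + φ + 3 * φ ^ 2 := by unfold T1; field_simp
  have h2 : D φ * T2 φ = 1 + φ + 2 * φ ^ 2 := by unfold T2; field_simp
  have h4 : ((5 * p + q + r : ℤ) : ℝ) + ((4 * p + q + r : ℤ) : ℝ) * φ + ((11 * p + 3 * q + 2 * r : ℤ) : ℝ) * φ ^ 2 = 0 := by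
    push_cast
    have hDe : D φ = 5 + 4 * φ + 11 * φ ^ 2 := rfl
    linear_combination D φ * h - (q : ℝ) * h1 - (r : ℝ) * h2 - (p : ℝ) * hDe
  obtain ⟨e1, e2, e3⟩ := indep h3 _ _ _ h4
  omega

theorem XX_bounds {k : ℕ} (hk : 40 ≤ k) : φ / (2 * ((3 + 2 * φ) / D φ)) * φ ^ k ≤ XX k ∧
    (XX k : ℝ) ≤ 2 * φ / ((3 + 2 * φ) / D φ) * φ ^ k := by
  have hφ := phi_pos h3
  have hlam : 0 < (3 + 2 * φ) / D φ := by have := D_pos h3; positivity
  have h := XX_size h3 hk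
  have hb := big h3 hk
  rw [abs_lt] at h
  have l1 := lo h3
  have e1 : φ ^ (k + 1) = φ * φ ^ k := by ring
  have e2 : 1 ≤ φ * φ ^ k := by nlinarith
  rw [e1] at h
  constructor
  · rw [div_mul_eq_mul_div, div_le_iff₀ (by positivity)]
    nlinarith [h.1, h.2]
  · rw [div_mul_eq_mul_div, le_div_iff₀ hlam]
    nlinarith [h.1, h.2]

end

end Pool.Agent.Q3.BestPhi
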