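import Mathlib
import Pool.Agent.Q3.BestPhi.Forms

/-!
# Inequalities between quadratic forms for the sup norm
-/

set_option autoImplicit false

namespace Pool.Agent.Q3.BestPhi

theorem prb {a b A B : ℝ} (ha : |a - A| ≤ 0.0003) (hb : |b - B| ≤ 0.0003) (hA : |A| ≤ 1) (hB : |B| ≤ 1) :
    |a * b - A * B| ≤ 0.0006004 := by
  have h1 : a * b - A * B = (a - A) * (b - B) + A * (b - B) + (a - A) * B := by ring
  have h2 : |(a - A) * (b - B)| ≤ 0.0003 * 0.0003 := by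
    rw [abs_mul]; exact mul_le_mul ha hb (abs_nonneg _) (by norm_num)
  have h3 : |A * (b - B)| ≤ 1 * 0.0003 := by
    rw [abs_mul]; exact mul_le_mul hA hb (abs_nonneg _) (by norm_num)
  have h4 : |(a - A) * B| ≤ 0.0003 * 1 := by
    rw [abs_mul]; exact mul_le_mul ha hB (abs_nonneg _) (by norm_num)
  rw [h1]
  have h5 := abs_add_le ((a - A) * (b - B) + A * (b - B)) ((a - A) * B)
  have h6 := abs_add_le ((a - A) * (b - B)) (A * (b - B))
  have h7 := h2.trans (show (0.0003 * 0.0003 : ℝ) ≤ 0.0000001 by norm_num)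
  linarith

theorem c300 {a b c d f h k l : ℝ} (h1 : |a - (-0.6671)| ≤ 0.0003) (h2 : |b - (-0.5624)| ≤ 0.0003)
    (h3 : |c - 0.3329| ≤ 0.0003) (h4 : |d - (-0.5624)| ≤ 0.0003) (h5 : |f - 0.5622| ≤ 0.0003)
    (h6 : |h - 0.3424| ≤ 0.0003) (h7 : |k - (-0.5383)| ≤ 0.0003) (h8 : |l - 0.1826| ≤ 0.0003) (e g : ℝ) :
    0.35 * ((a * e + b * g) ^ 2 - e ^ 2) + 0.25 * ((a * e + b * g) ^ 2 - g ^ 2) +
      0 * ((k * e + l * g) ^ 2 - (c * e + d * g) ^ 2) + 0.8 * ((k * e + l * g) ^ 2 - (f * e + h * g) ^ 2) ≤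
      -0.001 * (e ^ 2 + g ^ 2) := by
  have paa := prb h1 h1 (by norm_num [abs_le]) (by norm_num [abs_le])
  have pab := prb h1 h2 (by norm_num [abs_le]) (by norm_num [abs_le])
  have pbb := prb h2 h2 (by norm_num [abs_le]) (by norm_num [abs_le])
  have pcc := prb h3 h3 (by norm_num [abs_le]) (by norm_num [abs_le])
  have pcd := prb h3 h4 (by norm_num [abs_le]) (by norm_num [abs_le])
  have pdd := prb h4 h4 (by norm_num [abs_le]) (by norm_num [abs_le])
  have pff := prb h5 h5 (by norm_num [abs_le]) (by norm_num [abs_le])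
  have pfh := prb h5 h6 (by norm_num [abs_le]) (by norm_num [abs_le])
  have phh := prb h6 h6 (by norm_num [abs_le]) (by norm_num [abs_le])
  have pkk := prb h7 h7 (by norm_num [abs_le]) (by norm_num [abs_le])
  have pkl := prb h7 h8 (by norm_num [abs_le]) (by norm_num [abs_le])
  have pll := prb h8 h8 (by norm_num [abs_le]) (by norm_num [abs_le])
  rw [abs_le] at paa pab pbb pcc pcd pdd pff pfh phh pkk pkl pll
  have key := psd 0.1016 0.0178 0.12491 (-0.001 - ((0.35 + 0.25) * (a * a) - 0.35 + (0 + 0.8) * (k * k) - 0 * (c * c) - 0.8 * (f * f)))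
    (-(2 * ((0.35 + 0.25) * (a * b) + (0 + 0.8) * (k * l) - 0 * (c * d) - 0.8 * (f * h))))
    (-0.001 - ((0.35 + 0.25) * (b * b) - 0.25 + (0 + 0.8) * (l * l) - 0 * (d * d) - 0.8 * (h * h))) e g
    (by linarith [paa.1, paa.2, pcc.1, pcc.2, pff.1, pff.2, pkk.1, pkk.2])
    (by linarith [pab.1, pab.2, pcd.1, pcd.2, pfh.1, pfh.2, pkl.1, pkl.2])
    (by linarith [pab.1, pab.2, pcd.1, pcd.2, pfh.1, pfh.2, pkl.1, pkl.2])
    (by linarith [pbb.1, pbb.2, pdd.1, pdd.2, phh.1, phh.2, pll.1, pll.2]) (by norm_num) (by norm_num) (by norm_num)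
  linarith

theorem c301 {a b c d f h k l : ℝ} (h1 : |a - (-0.6671)| ≤ 0.0003) (h2 : |b - (-0.5624)| ≤ 0.0003)
    (h3 : |c - 0.3329| ≤ 0.0003) (h4 : |d - (-0.5624)| ≤ 0.0003) (h5 : |f - 0.5622| ≤ 0.0003)
    (h6 : |h - 0.3424| ≤ 0.0003) (h7 : |k - (-0.1826)| ≤ 0.0003) (h8 : |l - (-0.5413)| ≤ 0.0003) (e g : ℝ) :
    0 * ((a * e + b * g) ^ 2 - e ^ 2) + 0.4 * ((a * e + b * g) ^ 2 - g ^ 2) +
      0 * ((k * e + l * g) ^ 2 - (c * e + d * g) ^ 2) + 1.2 * ((k * e + l * g) ^ 2 - (f * e + h * g) ^ 2) ≤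
      -0.001 * (e ^ 2 + g ^ 2) := by
  have paa := prb h1 h1 (by norm_num [abs_le]) (by norm_num [abs_le])
  have pab := prb h1 h2 (by norm_num [abs_le]) (by norm_num [abs_le])
  have pbb := prb h2 h2 (by norm_num [abs_le]) (by norm_num [abs_le])
  have pcc := prb h3 h3 (by norm_num [abs_le]) (by norm_num [abs_le])
  have pcd := prb h3 h4 (by norm_num [abs_le]) (by norm_num [abs_le])
  have pdd := prb h4 h4 (by norm_num [abs_le]) (by norm_num [abs_le])
  have pff := prb h5 h5 (by norm_num [abs_le]) (by norm_num [abs_le])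
  have pfh := prb h5 h6 (by norm_num [abs_le]) (by norm_num [abs_le])
  have phh := prb h6 h6 (by norm_num [abs_le]) (by norm_num [abs_le])
  have pkk := prb h7 h7 (by norm_num [abs_le]) (by norm_num [abs_le])
  have pkl := prb h7 h8 (by norm_num [abs_le]) (by norm_num [abs_le])
  have pll := prb h8 h8 (by norm_num [abs_le]) (by norm_num [abs_le])
  rw [abs_le] at paa pab pbb pcc pcd pdd pff pfh phh pkk pkl pll
  have key := psd 0.15848 0.07883 0.05978 (-0.001 - ((0 + 0.4) * (a * a) - 0 + (0 + 1.2) * (k * k) - 0 * (c * c) - 1.2 * (f * f)))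
    (-(2 * ((0 + 0.4) * (a * b) + (0 + 1.2) * (k * l) - 0 * (c * d) - 1.2 * (f * h))))
    (-0.001 - ((0 + 0.4) * (b * b) - 0.4 + (0 + 1.2) * (l * l) - 0 * (d * d) - 1.2 * (h * h))) e g
    (by linarith [paa.1, paa.2, pcc.1, pcc.2, pff.1, pff.2, pkk.1, pkk.2])
    (by linarith [pab.1, pab.2, pcd.1, pcd.2, pfh.1, pfh.2, pkl.1, pkl.2])
    (by linarith [pab.1, pab.2, pcd.1, pcd.2, pfh.1, pfh.2, pkl.1, pkl.2])
    (by linarith [pbb.1, pbb.2, pdd.1, pdd.2, phh.1, phh.2, pll.1, pll.2]) (by norm_num) (by norm_num) (by norm_num)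
  linarith

theorem c310 {a b c d f h k l : ℝ} (h1 : |a - 0.5622| ≤ 0.0003) (h2 : |b - (-0.6576)| ≤ 0.0003)
    (h3 : |c - 0.3329| ≤ 0.0003) (h4 : |d - (-0.5624)| ≤ 0.0003) (h5 : |f - 0.5622| ≤ 0.0003)
    (h6 : |h - 0.3424| ≤ 0.0003) (h7 : |k - (-0.5383)| ≤ 0.0003) (h8 : |l - 0.1826| ≤ 0.0003) (e g : ℝ) :
    0.45 * ((a * e + b * g) ^ 2 - e ^ 2) + 0 * ((a * e + b * g) ^ 2 - g ^ 2) +
      1.1 * ((k * e + l * g) ^ 2 - (c * e + d * g) ^ 2) + 0 * ((k * e + l * g) ^ 2 - (f * e + h * g) ^ 2) ≤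
      -0.001 * (e ^ 2 + g ^ 2) := by
  have paa := prb h1 h1 (by norm_num [abs_le]) (by norm_num [abs_le])
  have pab := prb h1 h2 (by norm_num [abs_le]) (by norm_num [abs_le])
  have pbb := prb h2 h2 (by norm_num [abs_le]) (by norm_num [abs_le])
  have pcc := prb h3 h3 (by norm_num [abs_le]) (by norm_num [abs_le])
  have pcd := prb h3 h4 (by norm_num [abs_le]) (by norm_num [abs_le])
  have pdd := prb h4 h4 (by norm_num [abs_le]) (by norm_num [abs_le])
  have pff := prb h5 h5 (by norm_num [abs_le]) (by norm_num [abs_le])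
  have pfh := prb h5 h6 (by norm_num [abs_le]) (by norm_num [abs_le])
  have phh := prb h6 h6 (by norm_num [abs_le]) (by norm_num [abs_le])
  have pkk := prb h7 h7 (by norm_num [abs_le]) (by norm_num [abs_le])
  have pkl := prb h7 h8 (by norm_num [abs_le]) (by norm_num [abs_le])
  have pll := prb h8 h8 (by norm_num [abs_le]) (by norm_num [abs_le])
  rw [abs_le] at paa pab pbb pcc pcd pdd pff pfh phh pkk pkl pll
  have key := psd 0.10823 0.14037 0.11395 (-0.001 - ((0.45 + 0) * (a * a) - 0.45 + (1.1 + 0) * (k * k) - 1.1 * (c * c) - 0 * (f * f)))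
    (-(2 * ((0.45 + 0) * (a * b) + (1.1 + 0) * (k * l) - 1.1 * (c * d) - 0 * (f * h))))
    (-0.001 - ((0.45 + 0) * (b * b) - 0 + (1.1 + 0) * (l * l) - 1.1 * (d * d) - 0 * (h * h))) e g
    (by linarith [paa.1, paa.2, pcc.1, pcc.2, pff.1, pff.2, pkk.1, pkk.2])
    (by linarith [pab.1, pab.2, pcd.1, pcd.2, pfh.1, pfh.2, pkl.1, pkl.2])
    (by linarith [pab.1, pab.2, pcd.1, pcd.2, pfh.1, pfh.2, pkl.1, pkl.2])
    (by linarith [pbb.1, pbb.2, pdd.1, pdd.2, phh.1, phh.2, pll.1, pll.2]) (by norm_num) (by norm_num) (by norm_num)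
  linarith

theorem c311 {a b c d f h k l : ℝ} (h1 : |a - 0.5622| ≤ 0.0003) (h2 : |b - (-0.6576)| ≤ 0.0003)
    (h3 : |c - 0.3329| ≤ 0.0003) (h4 : |d - (-0.5624)| ≤ 0.0003) (h5 : |f - 0.5622| ≤ 0.0003)
    (h6 : |h - 0.3424| ≤ 0.0003) (h7 : |k - (-0.1826)| ≤ 0.0003) (h8 : |l - (-0.5413)| ≤ 0.0003) (e g : ℝ) :
    0.25 * ((a * e + b * g) ^ 2 - e ^ 2) + 0.35 * ((a * e + b * g) ^ 2 - g ^ 2) +
      0.8 * ((k * e + l * g) ^ 2 - (c * e + d * g) ^ 2) + 0 * ((k * e + l * g) ^ 2 - (f * e + h * g) ^ 2) ≤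
      -0.001 * (e ^ 2 + g ^ 2) := by
  have paa := prb h1 h1 (by norm_num [abs_le]) (by norm_num [abs_le])
  have pab := prb h1 h2 (by norm_num [abs_le]) (by norm_num [abs_le])
  have pbb := prb h2 h2 (by norm_num [abs_le]) (by norm_num [abs_le])
  have pcc := prb h3 h3 (by norm_num [abs_le]) (by norm_num [abs_le])
  have pcd := prb h3 h4 (by norm_num [abs_le]) (by norm_num [abs_le])
  have pdd := prb h4 h4 (by norm_num [abs_le]) (by norm_num [abs_le])
  have pff := prb h5 h5 (by norm_num [abs_le]) (by norm_num [abs_le])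
  have pfh := prb h5 h6 (by norm_num [abs_le]) (by norm_num [abs_le])
  have phh := prb h6 h6 (by norm_num [abs_le]) (by norm_num [abs_le])
  have pkk := prb h7 h7 (by norm_num [abs_le]) (by norm_num [abs_le])
  have pkl := prb h7 h8 (by norm_num [abs_le]) (by norm_num [abs_le])
  have pll := prb h8 h8 (by norm_num [abs_le]) (by norm_num [abs_le])
  rw [abs_le] at paa pab pbb pcc pcd pdd pff pfh phh pkk pkl pll
  have key := psd 0.11992 0.01681 0.10674 (-0.001 - ((0.25 + 0.35) * (a * a) - 0.25 + (0.8 + 0) * (k * k) - 0.8 * (c * c) - 0 * (f * f)))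
    (-(2 * ((0.25 + 0.35) * (a * b) + (0.8 + 0) * (k * l) - 0.8 * (c * d) - 0 * (f * h))))
    (-0.001 - ((0.25 + 0.35) * (b * b) - 0.35 + (0.8 + 0) * (l * l) - 0.8 * (d * d) - 0 * (h * h))) e g
    (by linarith [paa.1, paa.2, pcc.1, pcc.2, pff.1, pff.2, pkk.1, pkk.2])
    (by linarith [pab.1, pab.2, pcd.1, pcd.2, pfh.1, pfh.2, pkl.1, pkl.2])
    (by linarith [pab.1, pab.2, pcd.1, pcd.2, pfh.1, pfh.2, pkl.1, pkl.2])
    (by linarith [pbb.1, pbb.2, pdd.1, pdd.2, phh.1, phh.2, pll.1, pll.2]) (by norm_num) (by norm_num) (by norm_num)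
  linarith

theorem c600 {a b c d f h k l : ℝ} (h1 : |a - (-0.6671)| ≤ 0.0003) (h2 : |b - (-0.5624)| ≤ 0.0003)
    (h3 : |c - (-0.2054)| ≤ 0.0003) (h4 : |d - (-0.3798)| ≤ 0.0003) (h5 : |f - 0.3797| ≤ 0.0003)
    (h6 : |h - (-0.1989)| ≤ 0.0003) (h7 : |k - (-0.0765)| ≤ 0.0003) (h8 : |l - 0.3652| ≤ 0.0003) (e g : ℝ) :
    0.25 * ((a * e + b * g) ^ 2 - e ^ 2) + 0.3 * ((a * e + b * g) ^ 2 - g ^ 2) +
      2 * ((k * e + l * g) ^ 2 - (c * e + d * g) ^ 2) + 0.25 * ((k * e + l * g) ^ 2 - (f * e + h * g) ^ 2) ≤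
      -0.001 * (e ^ 2 + g ^ 2) := by
  have paa := prb h1 h1 (by norm_num [abs_le]) (by norm_num [abs_le])
  have pab := prb h1 h2 (by norm_num [abs_le]) (by norm_num [abs_le])
  have pbb := prb h2 h2 (by norm_num [abs_le]) (by norm_num [abs_le])
  have pcc := prb h3 h3 (by norm_num [abs_le]) (by norm_num [abs_le])
  have pcd := prb h3 h4 (by norm_num [abs_le]) (by norm_num [abs_le])
  have pdd := prb h4 h4 (by norm_num [abs_le]) (by norm_num [abs_le])
  have pff := prb h5 h5 (by norm_num [abs_le]) (by norm_num [abs_le])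
  have pfh := prb h5 h6 (by norm_num [abs_le]) (by norm_num [abs_le])
  have phh := prb h6 h6 (by norm_num [abs_le]) (by norm_num [abs_le])
  have pkk := prb h7 h7 (by norm_num [abs_le]) (by norm_num [abs_le])
  have pkl := prb h7 h8 (by norm_num [abs_le]) (by norm_num [abs_le])
  have pll := prb h8 h8 (by norm_num [abs_le]) (by norm_num [abs_le])
  rw [abs_le] at paa pab pbb pcc pcd pdd pff pfh phh pkk pkl pll
  have key := psd 0.10835 0.01886 0.1202 (-0.001 - ((0.25 + 0.3) * (a * a) - 0.25 + (2 + 0.25) * (k * k) - 2 * (c * c) - 0.25 * (f * f)))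
    (-(2 * ((0.25 + 0.3) * (a * b) + (2 + 0.25) * (k * l) - 2 * (c * d) - 0.25 * (f * h))))
    (-0.001 - ((0.25 + 0.3) * (b * b) - 0.3 + (2 + 0.25) * (l * l) - 2 * (d * d) - 0.25 * (h * h))) e g
    (by linarith [paa.1, paa.2, pcc.1, pcc.2, pff.1, pff.2, pkk.1, pkk.2])
    (by linarith [pab.1, pab.2, pcd.1, pcd.2, pfh.1, pfh.2, pkl.1, pkl.2])
    (by linarith [pab.1, pab.2, pcd.1, pcd.2, pfh.1, pfh.2, pkl.1, pkl.2])
    (by linarith [pbb.1, pbb.2, pdd.1, pdd.2, phh.1, phh.2, pll.1, pll.2]) (by norm_num) (by norm_num) (by norm_num)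
  linarith

theorem c601 {a b c d f h k l : ℝ} (h1 : |a - (-0.6671)| ≤ 0.0003) (h2 : |b - (-0.5624)| ≤ 0.0003)
    (h3 : |c - (-0.2054)| ≤ 0.0003) (h4 : |d - (-0.3798)| ≤ 0.0003) (h5 : |f - 0.3797| ≤ 0.0003)
    (h6 : |h - (-0.1989)| ≤ 0.0003) (h7 : |k - (-0.3651)| ≤ 0.0003) (h8 : |l - (-0.0827)| ≤ 0.0003) (e g : ℝ) :
    0.5 * ((a * e + b * g) ^ 2 - e ^ 2) + 0 * ((a * e + b * g) ^ 2 - g ^ 2) +
      2.5 * ((k * e + l * g) ^ 2 - (c * e + d * g) ^ 2) + 0 * ((k * e + l * g) ^ 2 - (f * e + h * g) ^ 2) ≤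
      -0.001 * (e ^ 2 + g ^ 2) := by
  have paa := prb h1 h1 (by norm_num [abs_le]) (by norm_num [abs_le])
  have pab := prb h1 h2 (by norm_num [abs_le]) (by norm_num [abs_le])
  have pbb := prb h2 h2 (by norm_num [abs_le]) (by norm_num [abs_le])
  have pcc := prb h3 h3 (by norm_num [abs_le]) (by norm_num [abs_le])
  have pcd := prb h3 h4 (by norm_num [abs_le]) (by norm_num [abs_le])
  have pdd := prb h4 h4 (by norm_num [abs_le]) (by norm_num [abs_le])
  have pff := prb h5 h5 (by norm_num [abs_le]) (by norm_num [abs_le])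
  have pfh := prb h5 h6 (by norm_num [abs_le]) (by norm_num [abs_le])
  have phh := prb h6 h6 (by norm_num [abs_le]) (by norm_num [abs_le])
  have pkk := prb h7 h7 (by norm_num [abs_le]) (by norm_num [abs_le])
  have pkl := prb h7 h8 (by norm_num [abs_le]) (by norm_num [abs_le])
  have pll := prb h8 h8 (by norm_num [abs_le]) (by norm_num [abs_le])
  rw [abs_le] at paa pab pbb pcc pcd pdd pff pfh phh pkk pkl pll
  have key := psd 0.04531 0.1428 0.18097 (-0.001 - ((0.5 + 0) * (a * a) - 0.5 + (2.5 + 0) * (k * k) - 2.5 * (c * c) - 0 * (f * f)))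
    (-(2 * ((0.5 + 0) * (a * b) + (2.5 + 0) * (k * l) - 2.5 * (c * d) - 0 * (f * h))))
    (-0.001 - ((0.5 + 0) * (b * b) - 0 + (2.5 + 0) * (l * l) - 2.5 * (d * d) - 0 * (h * h))) e g
    (by linarith [paa.1, paa.2, pcc.1, pcc.2, pff.1, pff.2, pkk.1, pkk.2])
    (by linarith [pab.1, pab.2, pcd.1, pcd.2, pfh.1, pfh.2, pkl.1, pkl.2])
    (by linarith [pab.1, pab.2, pcd.1, pcd.2, pfh.1, pfh.2, pkl.1, pkl.2])
    (by linarith [pbb.1, pbb.2, pdd.1, pdd.2, phh.1, phh.2, pll.1, pll.2]) (by norm_num) (by norm_num) (by norm_num)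
  linarith

theorem c610 {a b c d f h k l : ℝ} (h1 : |a - 0.5622| ≤ 0.0003) (h2 : |b - (-0.6576)| ≤ 0.0003)
    (h3 : |c - (-0.2054)| ≤ 0.0003) (h4 : |d - (-0.3798)| ≤ 0.0003) (h5 : |f - 0.3797| ≤ 0.0003)
    (h6 : |h - (-0.1989)| ≤ 0.0003) (h7 : |k - (-0.0765)| ≤ 0.0003) (h8 : |l - 0.3652| ≤ 0.0003) (e g : ℝ) :
    0 * ((a * e + b * g) ^ 2 - e ^ 2) + 0.5 * ((a * e + b * g) ^ 2 - g ^ 2) +
      0 * ((k * e + l * g) ^ 2 - (c * e + d * g) ^ 2) + 2.5 * ((k * e + l * g) ^ 2 - (f * e + h * g) ^ 2) ≤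
      -0.001 * (e ^ 2 + g ^ 2) := by
  have paa := prb h1 h1 (by norm_num [abs_le]) (by norm_num [abs_le])
  have pab := prb h1 h2 (by norm_num [abs_le]) (by norm_num [abs_le])
  have pbb := prb h2 h2 (by norm_num [abs_le]) (by norm_num [abs_le])
  have pcc := prb h3 h3 (by norm_num [abs_le]) (by norm_num [abs_le])
  have pcd := prb h3 h4 (by norm_num [abs_le]) (by norm_num [abs_le])
  have pdd := prb h4 h4 (by norm_num [abs_le]) (by norm_num [abs_le])
  have pff := prb h5 h5 (by norm_num [abs_le]) (by norm_num [abs_le])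
  have pfh := prb h5 h6 (by norm_num [abs_le]) (by norm_num [abs_le])
  have phh := prb h6 h6 (by norm_num [abs_le]) (by norm_num [abs_le])
  have pkk := prb h7 h7 (by norm_num [abs_le]) (by norm_num [abs_le])
  have pkl := prb h7 h8 (by norm_num [abs_le]) (by norm_num [abs_le])
  have pll := prb h8 h8 (by norm_num [abs_le]) (by norm_num [abs_le])
  rw [abs_le] at paa pab pbb pcc pcd pdd pff pfh phh pkk pkl pll
  have key := psd 0.18336 0.13849 0.04485 (-0.001 - ((0 + 0.5) * (a * a) - 0 + (0 + 2.5) * (k * k) - 0 * (c * c) - 2.5 * (f * f)))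
    (-(2 * ((0 + 0.5) * (a * b) + (0 + 2.5) * (k * l) - 0 * (c * d) - 2.5 * (f * h))))
    (-0.001 - ((0 + 0.5) * (b * b) - 0.5 + (0 + 2.5) * (l * l) - 0 * (d * d) - 2.5 * (h * h))) e g
    (by linarith [paa.1, paa.2, pcc.1, pcc.2, pff.1, pff.2, pkk.1, pkk.2])
    (by linarith [pab.1, pab.2, pcd.1, pcd.2, pfh.1, pfh.2, pkl.1, pkl.2])
    (by linarith [pab.1, pab.2, pcd.1, pcd.2, pfh.1, pfh.2, pkl.1, pkl.2])
    (by linarith [pbb.1, pbb.2, pdd.1, pdd.2, phh.1, phh.2, pll.1, pll.2]) (by norm_num) (by norm_num) (by norm_num)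
  linarith

theorem c611 {a b c d f h k l : ℝ} (h1 : |a - 0.5622| ≤ 0.0003) (h2 : |b - (-0.6576)| ≤ 0.0003)
    (h3 : |c - (-0.2054)| ≤ 0.0003) (h4 : |d - (-0.3798)| ≤ 0.0003) (h5 : |f - 0.3797| ≤ 0.0003)
    (h6 : |h - (-0.1989)| ≤ 0.0003) (h7 : |k - (-0.3651)| ≤ 0.0003) (h8 : |l - (-0.0827)| ≤ 0.0003) (e g : ℝ) :
    0.3 * ((a * e + b * g) ^ 2 - e ^ 2) + 0.25 * ((a * e + b * g) ^ 2 - g ^ 2) +
      0.25 * ((k * e + l * g) ^ 2 - (c * e + d * g) ^ 2) + 2 * ((k * e + l * g) ^ 2 - (f * e + h * g) ^ 2) ≤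
      -0.001 * (e ^ 2 + g ^ 2) := by
  have paa := prb h1 h1 (by norm_num [abs_le]) (by norm_num [abs_le])
  have pab := prb h1 h2 (by norm_num [abs_le]) (by norm_num [abs_le])
  have pbb := prb h2 h2 (by norm_num [abs_le]) (by norm_num [abs_le])
  have pcc := prb h3 h3 (by norm_num [abs_le]) (by norm_num [abs_le])
  have pcd := prb h3 h4 (by norm_num [abs_le]) (by norm_num [abs_le])
  have pdd := prb h4 h4 (by norm_num [abs_le]) (by norm_num [abs_le])
  have pff := prb h5 h5 (by norm_num [abs_le]) (by norm_num [abs_le])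
  have pfh := prb h5 h6 (by norm_num [abs_le]) (by norm_num [abs_le])
  have phh := prb h6 h6 (by norm_num [abs_le]) (by norm_num [abs_le])
  have pkk := prb h7 h7 (by norm_num [abs_le]) (by norm_num [abs_le])
  have pkl := prb h7 h8 (by norm_num [abs_le]) (by norm_num [abs_le])
  have pll := prb h8 h8 (by norm_num [abs_le]) (by norm_num [abs_le])
  rw [abs_le] at paa pab pbb pcc pcd pdd pff pfh phh pkk pkl pll
  have key := psd 0.121 0.01389 0.10782 (-0.001 - ((0.3 + 0.25) * (a * a) - 0.3 + (0.25 + 2) * (k * k) - 0.25 * (c * c) - 2 * (f * f)))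
    (-(2 * ((0.3 + 0.25) * (a * b) + (0.25 + 2) * (k * l) - 0.25 * (c * d) - 2 * (f * h))))
    (-0.001 - ((0.3 + 0.25) * (b * b) - 0.25 + (0.25 + 2) * (l * l) - 0.25 * (d * d) - 2 * (h * h))) e g
    (by linarith [paa.1, paa.2, pcc.1, pcc.2, pff.1, pff.2, pkk.1, pkk.2])
    (by linarith [pab.1, pab.2, pcd.1, pcd.2, pfh.1, pfh.2, pkl.1, pkl.2])
    (by linarith [pab.1, pab.2, pcd.1, pcd.2, pfh.1, pfh.2, pkl.1, pkl.2])
    (by linarith [pbb.1, pbb.2, pdd.1, pdd.2, phh.1, phh.2, pll.1, pll.2]) (by norm_num) (by norm_num) (by norm_num)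
  linarith

end Pool.Agent.Q3.BestPhi
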