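import Mathlib
import Pool.Agent.Q3.BestPhi.Lim
import Pool.Agent.Q3.BestPhi.SupCert

/-!
# The sup norm: how often the units are best approximations
-/

set_option autoImplicit false

namespace Pool.Agent.Q3.BestPhi

/-- entries of the matrix of the multiplication by the conjugate of `φ` -/
noncomputable def r11 (φ : ℝ) : ℝ := 13 * T1 φ - 4
/-- entries of the matrix of the multiplication by the conjugate of `φ` -/
noncomputable def r12 (φ : ℝ) : ℝ := 12 - 49 * T1 φ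
/-- entries of the matrix of the multiplication by the conjugate of `φ` -/
noncomputable def r21 (φ : ℝ) : ℝ := 13 * T2 φ - 2
/-- entries of the matrix of the multiplication by the conjugate of `φ` -/
noncomputable def r22 (φ : ℝ) : ℝ := 9 - 49 * T2 φ

/-- errors -/
noncomputable def ee (φ : ℝ) (k : ℕ) : ℝ := XX k * T1 φ - AA k
/-- errors -/
noncomputable def gg (φ : ℝ) (k : ℕ) : ℝ := XX k * T2 φ - BB k

theorem XX_succ (k : ℕ) : XX (k + 1) = -5 * XX k - 13 * AA k + 49 * BB k := by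
  have h := P_rec k
  unfold XX AA BB
  rw [show k + 1 + 2 = k + 3 by ring, show k + 1 + 1 = k + 2 by ring, h]
  ring

theorem AA_succ (k : ℕ) : AA (k + 1) = -XX k - 4 * AA k + 12 * BB k := by
  have h := P_rec k
  unfold XX AA BB
  rw [show k + 1 + 2 = k + 3 by ring, show k + 1 + 1 = k + 2 by ring, h]
  ring

theorem BB_succ (k : ℕ) : BB (k + 1) = -XX k - 2 * AA k + 9 * BB k := by
  have h := P_rec k
  unfold XX AA BB
  rw [show k + 1 + 2 = k + 3 by ring, show k + 1 + 1 = k + 2 by ring, h]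
  ring

section

variable {φ : ℝ} (h3 : φ ^ 3 = φ + 1)

include h3

theorem T_eq : D φ * T1 φ = 1 + φ + 3 * φ ^ 2 ∧ D φ * T2 φ = 1 + φ + 2 * φ ^ 2 := by
  have hD := (D_pos h3).ne'
  exact ⟨by unfold T1; field_simp, by unfold T2; field_simp⟩

theorem rel1 : 13 * T1 φ ^ 2 + T1 φ + 12 * T2 φ - 49 * (T1 φ * T2 φ) - 1 = 0 := by
  have hD := (D_pos h3).ne'
  obtain ⟨h1, h2⟩ := T_eq h3
  have hDe : D φ = 5 + 4 * φ + 11 * φ ^ 2 := rfl
  have key : D φ ^ 2 * (13 * T1 φ ^ 2 + T1 φ + 12 * T2 φ - 49 * (T1 φ * T2 φ) - 1) = 0 := by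
    have e1 : D φ ^ 2 * (13 * T1 φ ^ 2 + T1 φ + 12 * T2 φ - 49 * (T1 φ * T2 φ) - 1) =
        13 * (D φ * T1 φ) ^ 2 + (D φ * T1 φ) * D φ + 12 * (D φ * T2 φ) * D φ -
          49 * ((D φ * T1 φ) * (D φ * T2 φ)) - D φ ^ 2 := by ring
    rw [e1, h1, h2, hDe]
    linear_combination (-(φ + 4)) * h3
  rcases mul_eq_zero.1 key with h | h
  · exact absurd (pow_eq_zero_iff (two_ne_zero)|>.1 h) hD
  · exact h

theorem rel2 : 13 * (T1 φ * T2 φ) - 2 * T1 φ + 14 * T2 φ - 49 * T2 φ ^ 2 - 1 = 0 := by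
  have hD := (D_pos h3).ne'
  obtain ⟨h1, h2⟩ := T_eq h3
  have hDe : D φ = 5 + 4 * φ + 11 * φ ^ 2 := rfl
  have key : D φ ^ 2 * (13 * (T1 φ * T2 φ) - 2 * T1 φ + 14 * T2 φ - 49 * T2 φ ^ 2 - 1) = 0 := by
    have e1 : D φ ^ 2 * (13 * (T1 φ * T2 φ) - 2 * T1 φ + 14 * T2 φ - 49 * T2 φ ^ 2 - 1) =
        13 * ((D φ * T1 φ) * (D φ * T2 φ)) - 2 * (D φ * T1 φ) * D φ + 14 * (D φ * T2 φ) * D φ -
          49 * (D φ * T2 φ) ^ 2 - D φ ^ 2 := by ring
    rw [e1, h1, h2, hDe]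
    linear_combination (3 * φ + 1) * h3
  rcases mul_eq_zero.1 key with h | h
  · exact absurd (pow_eq_zero_iff (two_ne_zero)|>.1 h) hD
  · exact h

theorem tr_eq : r11 φ + r22 φ = -φ := by
  have hD := (D_pos h3).ne'
  obtain ⟨h1, h2⟩ := T_eq h3
  have hDe : D φ = 5 + 4 * φ + 11 * φ ^ 2 := rfl
  apply mul_left_cancel₀ hD
  unfold r11 r22
  linear_combination 13 * h1 - 49 * h2 + (5 + φ) * hDe + 11 * h3

theorem det_eq : r11 φ * r22 φ - r12 φ * r21 φ = φ ^ 2 - 1 := by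
  have hD := (D_pos h3).ne'
  obtain ⟨h1, h2⟩ := T_eq h3
  have hDe : D φ = 5 + 4 * φ + 11 * φ ^ 2 := rfl
  apply mul_left_cancel₀ hD
  unfold r11 r22 r12 r21
  linear_combination 19 * h1 + 40 * h2 - (11 + φ ^ 2) * hDe - (11 * φ + 4) * h3

theorem ee_succ (k : ℕ) : ee φ (k + 1) = r11 φ * ee φ k + r12 φ * gg φ k := by
  unfold ee gg r11 r12
  rw [XX_succ, AA_succ]
  push_cast
  linear_combination (-(XX k : ℝ)) * rel1 h3

theorem gg_succ (k : ℕ) : gg φ (k + 1) = r21 φ * ee φ k + r22 φ * gg φ k := by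
  unfold ee gg r21 r22
  rw [XX_succ, BB_succ]
  push_cast
  linear_combination (-(XX k : ℝ)) * rel2 h3

theorem ee_two (k : ℕ) : ee φ (k + 2) = -φ * ee φ (k + 1) - (φ ^ 2 - 1) * ee φ k := by
  rw [show k + 2 = k + 1 + 1 by ring, ee_succ h3 (k + 1), gg_succ h3 k, ee_succ h3 k, ← det_eq h3, ← tr_eq h3]
  ring

theorem gg_two (k : ℕ) : gg φ (k + 2) = -φ * gg φ (k + 1) - (φ ^ 2 - 1) * gg φ k := by
  rw [show k + 2 = k + 1 + 1 by ring, gg_succ h3 (k + 1), gg_succ h3 k, ee_succ h3 k, ← det_eq h3, ← tr_eq h3]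
  ring

theorem T_bd : 0.256371 < T1 φ ∧ T1 φ < 0.256379 ∧ 0.197091 < T2 φ ∧ T2 φ < 0.197097 := by
  have l1 := lo h3
  have l2 := hi h3
  have l3 := sq_lo h3
  have l4 := sq_hi h3
  have hD := D_pos h3
  have hDe : D φ = 5 + 4 * φ + 11 * φ ^ 2 := rfl
  unfold T1 T2
  refine ⟨?_, ?_, ?_, ?_⟩
  · rw [lt_div_iff₀ hD, hDe]; linarith
  · rw [div_lt_iff₀ hD, hDe]; linarith
  · rw [lt_div_iff₀ hD, hDe]; linarith
  · rw [div_lt_iff₀ hD, hDe]; linarith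

theorem mulphi {r : ℝ} (h1 : -1 ≤ r) (h2 : r ≤ 1) : |φ * r - 1.324715 * r| ≤ 0.00001 := by
  have l1 := lo h3
  have l2 := hi h3
  rw [abs_le]
  constructor <;> nlinarith

theorem rows1 :
    |1 * r11 φ + 0 - (-0.6671)| ≤ 0.0003 ∧ |1 * r12 φ - (-0.5624)| ≤ 0.0003 ∧
    |1 * r21 φ - 0.5622| ≤ 0.0003 ∧ |1 * r22 φ + 0 - (-0.6576)| ≤ 0.0003 := by
  have l1 := lo h3
  have l2 := hi h3
  have l3 := sq_lo h3
  have l4 := sq_hi h3
  obtain ⟨t1, t2, t3, t4⟩ := T_bd h3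
  have e11 : r11 φ = 13 * T1 φ - 4 := rfl
  have e12 : r12 φ = 12 - 49 * T1 φ := rfl
  have e21 : r21 φ = 13 * T2 φ - 2 := rfl
  have e22 : r22 φ = 9 - 49 * T2 φ := rfl
  have m11 := mulphi h3 (r := r11 φ) (by linarith) (by linarith)
  have m12 := mulphi h3 (r := r12 φ) (by linarith) (by linarith)
  have m21 := mulphi h3 (r := r21 φ) (by linarith) (by linarith)
  have m22 := mulphi h3 (r := r22 φ) (by linarith) (by linarith)
  rw [abs_le] at m11 m12 m21 m22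
  refine ⟨?_, ?_, ?_, ?_⟩ <;> (rw [abs_le]; constructor <;> nlinarith [m11.1, m11.2, m12.1, m12.2, m21.1, m21.2, m22.1, m22.2])

theorem rows2 :
    |-φ * r11 φ + (1 - φ ^ 2) - 0.1289| ≤ 0.0003 ∧ |-φ * r12 φ - 0.745| ≤ 0.0003 ∧
    |-φ * r21 φ - (-0.7448)| ≤ 0.0003 ∧ |-φ * r22 φ + (1 - φ ^ 2) - 0.1162| ≤ 0.0003 := by
  have l1 := lo h3
  have l2 := hi h3
  have l3 := sq_lo h3
  have l4 := sq_hi h3
  obtain ⟨t1, t2, t3, t4⟩ := T_bd h3
  have e11 : r11 φ = 13 * T1 φ - 4 := rfl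
  have e12 : r12 φ = 12 - 49 * T1 φ := rfl
  have e21 : r21 φ = 13 * T2 φ - 2 := rfl
  have e22 : r22 φ = 9 - 49 * T2 φ := rfl
  have m11 := mulphi h3 (r := r11 φ) (by linarith) (by linarith)
  have m12 := mulphi h3 (r := r12 φ) (by linarith) (by linarith)
  have m21 := mulphi h3 (r := r21 φ) (by linarith) (by linarith)
  have m22 := mulphi h3 (r := r22 φ) (by linarith) (by linarith)
  rw [abs_le] at m11 m12 m21 m22
  refine ⟨?_, ?_, ?_, ?_⟩ <;> (rw [abs_le]; constructor <;> nlinarith [m11.1, m11.2, m12.1, m12.2, m21.1, m21.2, m22.1, m22.2])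

theorem rows3 :
    |1 * r11 φ + 1 - 0.3329| ≤ 0.0003 ∧ |1 * r12 φ - (-0.5624)| ≤ 0.0003 ∧
    |1 * r21 φ - 0.5622| ≤ 0.0003 ∧ |1 * r22 φ + 1 - 0.3424| ≤ 0.0003 := by
  have l1 := lo h3
  have l2 := hi h3
  have l3 := sq_lo h3
  have l4 := sq_hi h3
  obtain ⟨t1, t2, t3, t4⟩ := T_bd h3
  have e11 : r11 φ = 13 * T1 φ - 4 := rfl
  have e12 : r12 φ = 12 - 49 * T1 φ := rfl
  have e21 : r21 φ = 13 * T2 φ - 2 := rfl
  have e22 : r22 φ = 9 - 49 * T2 φ := rfl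
  have m11 := mulphi h3 (r := r11 φ) (by linarith) (by linarith)
  have m12 := mulphi h3 (r := r12 φ) (by linarith) (by linarith)
  have m21 := mulphi h3 (r := r21 φ) (by linarith) (by linarith)
  have m22 := mulphi h3 (r := r22 φ) (by linarith) (by linarith)
  rw [abs_le] at m11 m12 m21 m22
  refine ⟨?_, ?_, ?_, ?_⟩ <;> (rw [abs_le]; constructor <;> nlinarith [m11.1, m11.2, m12.1, m12.2, m21.1, m21.2, m22.1, m22.2])

theorem rows4 :
    |(1 - φ) * r11 φ + (1 - φ ^ 2) - (-0.5383)| ≤ 0.0003 ∧ |(1 - φ) * r12 φ - 0.1826| ≤ 0.0003 ∧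
    |(1 - φ) * r21 φ - (-0.1826)| ≤ 0.0003 ∧ |(1 - φ) * r22 φ + (1 - φ ^ 2) - (-0.5413)| ≤ 0.0003 := by
  have l1 := lo h3
  have l2 := hi h3
  have l3 := sq_lo h3
  have l4 := sq_hi h3
  obtain ⟨t1, t2, t3, t4⟩ := T_bd h3
  have e11 : r11 φ = 13 * T1 φ - 4 := rfl
  have e12 : r12 φ = 12 - 49 * T1 φ := rfl
  have e21 : r21 φ = 13 * T2 φ - 2 := rfl
  have e22 : r22 φ = 9 - 49 * T2 φ := rfl
  have m11 := mulphi h3 (r := r11 φ) (by linarith) (by linarith)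
  have m12 := mulphi h3 (r := r12 φ) (by linarith) (by linarith)
  have m21 := mulphi h3 (r := r21 φ) (by linarith) (by linarith)
  have m22 := mulphi h3 (r := r22 φ) (by linarith) (by linarith)
  rw [abs_le] at m11 m12 m21 m22
  refine ⟨?_, ?_, ?_, ?_⟩ <;> (rw [abs_le]; constructor <;> nlinarith [m11.1, m11.2, m12.1, m12.2, m21.1, m21.2, m22.1, m22.2])

theorem rows6 :
    |(2 - φ) * r11 φ + (2 - φ ^ 2) - (-0.2054)| ≤ 0.0003 ∧ |(2 - φ) * r12 φ - (-0.3798)| ≤ 0.0003 ∧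
    |(2 - φ) * r21 φ - 0.3797| ≤ 0.0003 ∧ |(2 - φ) * r22 φ + (2 - φ ^ 2) - (-0.1989)| ≤ 0.0003 := by
  have l1 := lo h3
  have l2 := hi h3
  have l3 := sq_lo h3
  have l4 := sq_hi h3
  obtain ⟨t1, t2, t3, t4⟩ := T_bd h3
  have e11 : r11 φ = 13 * T1 φ - 4 := rfl
  have e12 : r12 φ = 12 - 49 * T1 φ := rfl
  have e21 : r21 φ = 13 * T2 φ - 2 := rfl
  have e22 : r22 φ = 9 - 49 * T2 φ := rfl
  have m11 := mulphi h3 (r := r11 φ) (by linarith) (by linarith)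
  have m12 := mulphi h3 (r := r12 φ) (by linarith) (by linarith)
  have m21 := mulphi h3 (r := r21 φ) (by linarith) (by linarith)
  have m22 := mulphi h3 (r := r22 φ) (by linarith) (by linarith)
  rw [abs_le] at m11 m12 m21 m22
  refine ⟨?_, ?_, ?_, ?_⟩ <;> (rw [abs_le]; constructor <;> nlinarith [m11.1, m11.2, m12.1, m12.2, m21.1, m21.2, m22.1, m22.2])

theorem rows7 :
    |(2 - 2 * φ) * r11 φ + (3 - 2 * φ ^ 2) - (-0.0765)| ≤ 0.0003 ∧ |(2 - 2 * φ) * r12 φ - 0.3652| ≤ 0.0003 ∧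
    |(2 - 2 * φ) * r21 φ - (-0.3651)| ≤ 0.0003 ∧ |(2 - 2 * φ) * r22 φ + (3 - 2 * φ ^ 2) - (-0.0827)| ≤ 0.0003 := by
  have l1 := lo h3
  have l2 := hi h3
  have l3 := sq_lo h3
  have l4 := sq_hi h3
  obtain ⟨t1, t2, t3, t4⟩ := T_bd h3
  have e11 : r11 φ = 13 * T1 φ - 4 := rfl
  have e12 : r12 φ = 12 - 49 * T1 φ := rfl
  have e21 : r21 φ = 13 * T2 φ - 2 := rfl
  have e22 : r22 φ = 9 - 49 * T2 φ := rfl
  have m11 := mulphi h3 (r := r11 φ) (by linarith) (by linarith)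
  have m12 := mulphi h3 (r := r12 φ) (by linarith) (by linarith)
  have m21 := mulphi h3 (r := r21 φ) (by linarith) (by linarith)
  have m22 := mulphi h3 (r := r22 φ) (by linarith) (by linarith)
  rw [abs_le] at m11 m12 m21 m22
  refine ⟨?_, ?_, ?_, ?_⟩ <;> (rw [abs_le]; constructor <;> nlinarith [m11.1, m11.2, m12.1, m12.2, m21.1, m21.2, m22.1, m22.2])

end

end Pool.Agent.Q3.BestPhi
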