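import Mathlib
import Pool.Agent.Q3.BestPhi.SupRows

/-!
# The sup norm: exclusions, best approximations
-/

set_option autoImplicit false

open Filter Topology

namespace Pool.Agent.Q3.BestPhi

/-- the square of the sup norm of the error of the `k`-th unit -/
noncomputable def ss (φ : ℝ) (k : ℕ) : ℝ := max (ee φ k ^ 2) (gg φ k ^ 2)

theorem XX_rec (k : ℕ) : XX (k + 3) = XX (k + 1) + XX k := by
  have h := P_rec k
  have h1 := P_rec (k + 1)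
  have h2 := P_rec (k + 2)
  unfold XX
  simp only [Nat.add_assoc, Nat.reduceAdd] at *
  omega

theorem AA_rec (k : ℕ) : AA (k + 3) = AA (k + 1) + AA k := by
  have h := P_rec k
  have h1 := P_rec (k + 1)
  have h2 := P_rec (k + 2)
  unfold AA
  simp only [Nat.add_assoc, Nat.reduceAdd] at *
  omega

theorem BB_rec (k : ℕ) : BB (k + 3) = BB (k + 1) + BB k := by
  have h := P_rec k
  have h1 := P_rec (k + 1)
  have h2 := P_rec (k + 2)
  unfold BB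
  simp only [Nat.add_assoc, Nat.reduceAdd] at *
  omega

theorem ee_rec (φ : ℝ) (k : ℕ) : ee φ (k + 3) = ee φ (k + 1) + ee φ k := by
  unfold ee
  rw [XX_rec, AA_rec]
  push_cast
  ring

theorem gg_rec (φ : ℝ) (k : ℕ) : gg φ (k + 3) = gg φ (k + 1) + gg φ k := by
  unfold gg
  rw [XX_rec, BB_rec]
  push_cast
  ring

section

variable {φ : ℝ} (h3 : φ ^ 3 = φ + 1)

include h3

theorem pos_k (k : ℕ) : 0 < ee φ k ^ 2 + gg φ k ^ 2 := by
  have h := q_u h3 k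
  by_contra hcon
  push Not at hcon
  have e0 : ee φ k = 0 := by nlinarith [sq_nonneg (ee φ k), sq_nonneg (gg φ k)]
  have g0 : gg φ k = 0 := by nlinarith [sq_nonneg (ee φ k), sq_nonneg (gg φ k)]
  change qq φ (ee φ k) (gg φ k) * φ ^ k = 1 at h
  rw [e0, g0] at h
  unfold qq at h
  norm_num at h

theorem row (j : ℕ) (α β : ℝ) (hj : ∀ k, ee φ (k + j) = α * ee φ (k + 1) + β * ee φ k)
    (hj' : ∀ k, gg φ (k + j) = α * gg φ (k + 1) + β * gg φ k) (k : ℕ) :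
    ee φ (k + j) = (α * r11 φ + β) * ee φ k + (α * r12 φ) * gg φ k ∧
    gg φ (k + j) = (α * r21 φ) * ee φ k + (α * r22 φ + β) * gg φ k := by
  rw [hj, hj', ee_succ h3, gg_succ h3]
  constructor <;> ring

theorem ee4 (k : ℕ) : ee φ (k + 4) = (1 - φ) * ee φ (k + 1) + (1 - φ ^ 2) * ee φ k := by
  rw [show k + 4 = k + 1 + 3 by ring, ee_rec, show k + 1 + 1 = k + 2 by ring, ee_two h3]; ring
theorem gg4 (k : ℕ) : gg φ (k + 4) = (1 - φ) * gg φ (k + 1) + (1 - φ ^ 2) * gg φ k := by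
  rw [show k + 4 = k + 1 + 3 by ring, gg_rec, show k + 1 + 1 = k + 2 by ring, gg_two h3]; ring
theorem ee6 (k : ℕ) : ee φ (k + 6) = (2 - φ) * ee φ (k + 1) + (2 - φ ^ 2) * ee φ k := by
  rw [show k + 6 = k + 3 + 3 by ring, ee_rec, show k + 3 + 1 = k + 4 by ring, ee4 h3, ee_rec]; ring
theorem gg6 (k : ℕ) : gg φ (k + 6) = (2 - φ) * gg φ (k + 1) + (2 - φ ^ 2) * gg φ k := by
  rw [show k + 6 = k + 3 + 3 by ring, gg_rec, show k + 3 + 1 = k + 4 by ring, gg4 h3, gg_rec]; ring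
theorem ee7 (k : ℕ) : ee φ (k + 7) = (2 - 2 * φ) * ee φ (k + 1) + (3 - 2 * φ ^ 2) * ee φ k := by
  rw [show k + 7 = k + 4 + 3 by ring, ee_rec, show k + 4 + 1 = k + 2 + 3 by ring, ee_rec,
    show k + 2 + 1 = k + 3 by ring, ee_rec, ee_two h3, ee4 h3]; ring
theorem gg7 (k : ℕ) : gg φ (k + 7) = (2 - 2 * φ) * gg φ (k + 1) + (3 - 2 * φ ^ 2) * gg φ k := by
  rw [show k + 7 = k + 4 + 3 by ring, gg_rec, show k + 4 + 1 = k + 2 + 3 by ring, gg_rec,
    show k + 2 + 1 = k + 3 by ring, gg_rec, gg_two h3, gg4 h3]; ring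

theorem f1 (k : ℕ) : ss φ (k + 2) < ss φ k := by
  obtain ⟨a1, a2, b1, b2⟩ := rows2 h3
  obtain ⟨e2, g2⟩ := row h3 2 (-φ) (1 - φ ^ 2) (fun k => by rw [ee_two h3]; ring)
    (fun k => by rw [gg_two h3]; ring) k
  have hp := pos_k h3 k
  have m1 := le_max_left (ee φ k ^ 2) (gg φ k ^ 2)
  have m2 := le_max_right (ee φ k ^ 2) (gg φ k ^ 2)
  have key : ∀ {a b A B : ℝ}, |a - A| ≤ 0.0003 → |b - B| ≤ 0.0003 → |A| ≤ 1 → |B| ≤ 1 → ∀ w : ℝ,
      A * A ≤ w - 0.1 → B * B ≤ 0.9 - w → |A * B| ≤ 0.097 → ∀ e g : ℝ,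
      (a * e + b * g) ^ 2 ≤ (w - 0.001) * e ^ 2 + (0.999 - w) * g ^ 2 := by
    intro a b A B ha hb hA hB w h1 h2 h4 e g
    have p1 := prb ha ha hA hA
    have p2 := prb hb hb hB hB
    have p3 := prb ha hb hA hB
    rw [abs_le] at p1 p2 p3 h4
    have := psd 0.098 0.196 0.098 (w - 0.001 - a * a) (-(2 * (a * b))) (0.999 - w - b * b) e g
      (by linarith [p1.2]) (by linarith [p3.1, h4.1]) (by linarith [p3.2, h4.2]) (by linarith [p2.2])
      (by norm_num) (by norm_num) (by norm_num)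
    linarith
  have hs : 0 < ss φ k := by
    unfold ss
    by_contra hcon
    push Not at hcon
    linarith
  have c1 : ee φ (k + 2) ^ 2 ≤ 0.998 * ss φ k := by
    have := key a1 a2 (by norm_num [abs_le]) (by norm_num [abs_le]) 0.23 (by norm_num) (by norm_num)
      (by norm_num [abs_le]) (ee φ k) (gg φ k)
    rw [← e2] at this
    unfold ss
    linarith
  have c2 : gg φ (k + 2) ^ 2 ≤ 0.998 * ss φ k := by
    have := key b1 b2 (by norm_num [abs_le]) (by norm_num [abs_le]) 0.77 (by norm_num) (by norm_num)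
      (by norm_num [abs_le]) (ee φ k) (gg φ k)
    rw [← g2] at this
    unfold ss
    linarith
  have : ss φ (k + 2) ≤ 0.998 * ss φ k := max_le c1 c2
  linarith

theorem excl1 (k : ℕ) (h1 : ss φ k ≤ ss φ (k + 1)) (h2 : ss φ (k + 1) ≤ ss φ (k + 2)) : False := by
  have := f1 h3 k
  linarith

omit h3 in
theorem cases_max {x y z w : ℝ} (h : max x y ≤ max z w) : (x ≤ z ∧ y ≤ z) ∨ (x ≤ w ∧ y ≤ w) := by
  rw [max_le_iff] at h
  rcases le_total w z with h' | h'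
  · rw [max_eq_left h'] at h; exact Or.inl h
  · rw [max_eq_right h'] at h; exact Or.inr h

theorem excl3 (k : ℕ) (h1 : ss φ k ≤ ss φ (k + 1)) (h2 : ss φ (k + 3) ≤ ss φ (k + 4)) : False := by
  obtain ⟨a1, a2, b1, b2⟩ := rows1 h3
  obtain ⟨c1, c2, d1, d2⟩ := rows3 h3
  obtain ⟨u1, u2, v1, v2⟩ := rows4 h3
  obtain ⟨E1, G1⟩ := row h3 1 1 0 (fun k => by ring) (fun k => by ring) k
  obtain ⟨E3, G3⟩ := row h3 3 1 1 (fun k => by rw [ee_rec]; ring) (fun k => by rw [gg_rec]; ring) k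
  obtain ⟨E4, G4⟩ := row h3 4 (1 - φ) (1 - φ ^ 2) (ee4 h3) (gg4 h3) k
  have hp := pos_k h3 k
  unfold ss at h1 h2
  rw [E1, G1] at h1
  rw [E3, G3, E4, G4] at h2
  rcases cases_max h1 with ⟨x1, x2⟩ | ⟨x1, x2⟩ <;> rcases cases_max h2 with ⟨y1, y2⟩ | ⟨y1, y2⟩
  · have := c300 a1 a2 c1 c2 d1 d2 u1 u2 (ee φ k) (gg φ k); linarith
  · have := c301 a1 a2 c1 c2 d1 d2 v1 v2 (ee φ k) (gg φ k); linarith
  · have := c310 b1 b2 c1 c2 d1 d2 u1 u2 (ee φ k) (gg φ k); linarith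
  · have := c311 b1 b2 c1 c2 d1 d2 v1 v2 (ee φ k) (gg φ k); linarith

theorem excl6 (k : ℕ) (h1 : ss φ k ≤ ss φ (k + 1)) (h2 : ss φ (k + 6) ≤ ss φ (k + 7)) : False := by
  obtain ⟨a1, a2, b1, b2⟩ := rows1 h3
  obtain ⟨c1, c2, d1, d2⟩ := rows6 h3
  obtain ⟨u1, u2, v1, v2⟩ := rows7 h3
  obtain ⟨E1, G1⟩ := row h3 1 1 0 (fun k => by ring) (fun k => by ring) k
  obtain ⟨E6, G6⟩ := row h3 6 (2 - φ) (2 - φ ^ 2) (ee6 h3) (gg6 h3) k
  obtain ⟨E7, G7⟩ := row h3 7 (2 - 2 * φ) (3 - 2 * φ ^ 2) (ee7 h3) (gg7 h3) k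
  have hp := pos_k h3 k
  unfold ss at h1 h2
  rw [E1, G1] at h1
  rw [E6, G6, E7, G7] at h2
  rcases cases_max h1 with ⟨x1, x2⟩ | ⟨x1, x2⟩ <;> rcases cases_max h2 with ⟨y1, y2⟩ | ⟨y1, y2⟩
  · have := c600 a1 a2 c1 c2 d1 d2 u1 u2 (ee φ k) (gg φ k); linarith
  · have := c601 a1 a2 c1 c2 d1 d2 v1 v2 (ee φ k) (gg φ k); linarith
  · have := c610 b1 b2 c1 c2 d1 d2 u1 u2 (ee φ k) (gg φ k); linarith
  · have := c611 b1 b2 c1 c2 d1 d2 v1 v2 (ee φ k) (gg φ k); linarith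

end

end Pool.Agent.Q3.BestPhi
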