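import Mathlib
import Pool.Agent.Q3.BestPhi.SupMain

/-!
# The sup norm: best approximations and their number
-/

set_option autoImplicit false

open Filter Topology

namespace Pool.Agent.Q3.BestPhi

theorem red2 {φ : ℝ} (h3 : φ ^ 3 = φ + 1) (k : ℕ) (x a b : ℤ) (h1 : 4 * φ ^ k ≤ ell φ x a b)
    (h2 : ell φ x a b < 4 * φ ^ (k + 1)) (hN : 1 ≤ NN x a b) (hN2 : NN x a b ≤ 2) :
    x = P (k + 4) ∧ a = P (k + 4 + 1) ∧ b = P (k + 4 + 2) := by
  obtain ⟨f, hf, e1, e2, e3⟩ := red h3 k x a b h1 h2 hN (by omega)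
  have hc := cls_NN hf k
  rw [← e1, ← e2, ← e3] at hc
  rcases hf with rfl | rfl | rfl | rfl | rfl
  · refine ⟨e1, ?_, ?_⟩
    · rw [e2]
    · rw [e3]
  · exfalso
    have : NN ((fun n => 2 * P (n + 2)) 0) ((fun n => 2 * P (n + 2)) 1) ((fun n => 2 * P (n + 2)) 2) = 8 := by decide
    omega
  · exfalso
    have : NN ((fun n => 2 * P n + P (n + 1)) 0) ((fun n => 2 * P n + P (n + 1)) 1)
      ((fun n => 2 * P n + P (n + 1)) 2) = 7 := by decide
    omega
  · exfalso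
    have : NN ((fun n => P (n + 1) + P (n + 3)) 0) ((fun n => P (n + 1) + P (n + 3)) 1)
      ((fun n => P (n + 1) + P (n + 3)) 2) = 5 := by decide
    omega
  · exfalso
    have : NN ((fun n => 2 * P (n + 4) - P (n + 3)) 0) ((fun n => 2 * P (n + 4) - P (n + 3)) 1)
      ((fun n => 2 * P (n + 4) - P (n + 3)) 2) = 11 := by decide
    omega

section

variable {φ : ℝ} (h3 : φ ^ 3 = φ + 1)

include h3

theorem small_uv2 {K : ℕ} (hK : 40 ≤ K) {e g : ℝ} (h : qq φ e g * φ ^ K ≤ 2.036) :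
    |e| < 0.0017 ∧ |g| < 0.0017 := by
  have hb := big h3 hK
  have h1 := q_low h3 e g
  have h2 : qq φ e g ≤ 0.00004072 := by
    by_contra hcon
    push Not at hcon
    nlinarith
  constructor
  · rw [abs_lt]; constructor <;> nlinarith [sq_nonneg e, sq_nonneg g]
  · rw [abs_lt]; constructor <;> nlinarith [sq_nonneg e, sq_nonneg g]

theorem coef_bd2 {e g : ℝ} (he : |e| < 0.0017) (hg : |g| < 0.0017) :
    |(φ ^ 2 + φ - 3) * e + (4 * φ ^ 2 - φ - 1) * g| < 0.01 := by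
  have l1 := lo h3
  have l2 := hi h3
  have l3 := sq_lo h3
  have l4 := sq_hi h3
  have h1 : |(φ ^ 2 + φ - 3) * e| ≤ 0.0797 * 0.0017 := by
    rw [abs_mul]
    apply mul_le_mul _ he.le (abs_nonneg _) (by norm_num)
    rw [abs_of_nonneg (by linarith)]
    linarith
  have h2 : |(4 * φ ^ 2 - φ - 1) * g| ≤ 4.7 * 0.0017 := by
    rw [abs_mul]
    apply mul_le_mul _ hg.le (abs_nonneg _) (by norm_num)
    rw [abs_of_nonneg (by linarith)]
    linarith
  have := abs_add_le ((φ ^ 2 + φ - 3) * e) ((4 * φ ^ 2 - φ - 1) * g)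
  have h1' := h1.trans (show (0.0797 * 0.0017 : ℝ) ≤ 0.001 by norm_num)
  have h2' := h2.trans (show (4.7 * 0.0017 : ℝ) ≤ 0.008 by norm_num)
  linarith

theorem core2 {X A B : ℤ} {K : ℕ} (hK : 40 ≤ K) (hX0 : 0 < X) (hX : X ≤ XX K)
    (hq : (X * T1 φ - A) ^ 2 + (X * T2 φ - B) ^ 2 ≤
      2 * ((XX K * T1 φ - AA K) ^ 2 + (XX K * T2 φ - BB K) ^ 2)) :
    ∃ j, K ≤ j + 2 ∧ X = XX j ∧ A = AA j ∧ B = BB j := by
  have l1 := lo h3
  have l2 := hi h3
  have l3 := sq_lo h3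
  have l4 := sq_hi h3
  have hφ := phi_pos h3
  have hbig := big h3 hK
  obtain ⟨e, he⟩ : ∃ e : ℝ, e = X * T1 φ - A := ⟨_, rfl⟩
  obtain ⟨g, hg⟩ : ∃ g : ℝ, g = X * T2 φ - B := ⟨_, rfl⟩
  have hu := q_u h3 K
  have ulow := q_low h3 (XX K * T1 φ - AA K) (XX K * T2 φ - BB K)
  have zup := q_up h3 e g
  have zlow := q_low h3 e g
  rw [← he, ← hg] at hq
  have hZ : qq φ e g * φ ^ K ≤ 2.036 := by
    have h1 : qq φ e g ≤ 2.036 * qq φ (XX K * T1 φ - AA K) (XX K * T2 φ - BB K) := by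
      have : 0 ≤ (XX K * T1 φ - AA K) ^ 2 + (XX K * T2 φ - BB K) ^ 2 := by positivity
      nlinarith
    calc qq φ e g * φ ^ K ≤ 2.036 * qq φ (XX K * T1 φ - AA K) (XX K * T2 φ - BB K) * φ ^ K := by
          gcongr
      _ = 2.036 * (qq φ (XX K * T1 φ - AA K) (XX K * T2 φ - BB K) * φ ^ K) := by ring
      _ = 2.036 := by rw [hu, mul_one]
  obtain ⟨s1, s2⟩ := small_uv2 h3 hK hZ
  have hc := coef_bd2 h3 s1 s2
  have hell := ell_new h3 X A B
  rw [← he, ← hg] at hell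
  have hsz := XX_size h3 hK
  rw [abs_lt] at hc hsz
  have hDb := D_bd h3
  have hlam : 0 < (3 + 2 * φ) / D φ := by have := D_pos h3; positivity
  have hlam2 : 0.1 ≤ (3 + 2 * φ) / D φ := by
    rw [le_div_iff₀ (D_pos h3)]; linarith
  have X1 : (1 : ℝ) ≤ X := by exact_mod_cast hX0
  have X2 : (X : ℝ) ≤ XX K := by exact_mod_cast hX
  have y1 : (3 + 2 * φ) / D φ * X ≤ (3 + 2 * φ) / D φ * XX K := mul_le_mul_of_nonneg_left X2 hlam.le
  have y2 : (3 + 2 * φ) / D φ * 1 ≤ (3 + 2 * φ) / D φ * X := mul_le_mul_of_nonneg_left X1 hlam.le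
  have up : ell φ (ox X A B) (oa X A B) (ob A B) ≤ φ ^ (K + 1) + 0.02 := by linarith
  have dn : 0 < ell φ (ox X A B) (oa X A B) (ob A B) := by linarith
  have hm := ell_mul h3 (ox X A B) (oa X A B) (ob A B)
  rw [conv_e h3, conv_g h3, Qf_qq h3, ← he, ← hg] at hm
  have hZpos : 0 < qq φ e g := by
    by_contra hcon
    push Not at hcon
    have e0 : e = 0 := by nlinarith [sq_nonneg e, sq_nonneg g]
    have g0 : g = 0 := by nlinarith [sq_nonneg e, sq_nonneg g]
    have c1 := conv_e h3 X A B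
    have c2 := conv_g h3 X A B
    rw [← he, ← hg, e0, g0, mul_zero, mul_zero, add_zero] at c1 c2
    have z1 : ox X A B = 0 := by
      by_contra hx
      exact irr h3 _ _ hx c1
    rw [z1, Int.cast_zero, mul_zero, zero_sub, neg_eq_zero] at c1 c2
    have z2 : oa X A B = 0 := by exact_mod_cast c1
    have z3 : ob A B = 0 := by exact_mod_cast c2
    unfold ox at z1
    unfold oa at z2
    unfold ob at z3
    omega
  have hNpos : 0 < NN (ox X A B) (oa X A B) (ob A B) := by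
    have h5 : 0 < φ * (NN (ox X A B) (oa X A B) (ob A B) : ℝ) := by rw [← hm]; positivity
    have h6 : (0 : ℝ) < NN (ox X A B) (oa X A B) (ob A B) := by
      by_contra hcon
      push Not at hcon
      nlinarith
    exact_mod_cast h6
  have hN2 : NN (ox X A B) (oa X A B) (ob A B) ≤ 2 := by
    by_contra hne
    push Not at hne
    have h2 : (3 : ℝ) ≤ NN (ox X A B) (oa X A B) (ob A B) := by
      exact_mod_cast hne
    have h4 : φ * 3 ≤ ell φ (ox X A B) (oa X A B) (ob A B) * qq φ e g := by rw [hm]; nlinarith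
    have h5 : ell φ (ox X A B) (oa X A B) (ob A B) * qq φ e g ≤ (φ ^ (K + 1) + 0.02) * qq φ e g := by
      gcongr
    have h6 : (φ ^ (K + 1) + 0.02) * qq φ e g = φ * (qq φ e g * φ ^ K) + 0.02 * qq φ e g := by ring
    have h7 : qq φ e g ≤ 0.001 := by nlinarith
    nlinarith
  have hN1r : (1 : ℝ) ≤ NN (ox X A B) (oa X A B) (ob A B) := by exact_mod_cast hNpos
  have hge : φ ≤ ell φ (ox X A B) (oa X A B) (ob A B) * qq φ e g := by rw [hm]; nlinarith
  -- ell > φ ^ (K + 1) / φ ^ 3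
  have hbigell : φ ^ (K + 1) < ell φ (ox X A B) (oa X A B) (ob A B) * φ ^ 3 := by
    by_contra hcon
    push Not at hcon
    have h4 : 0 < φ ^ K := by positivity
    have h5 : φ * φ ^ K ≤ ell φ (ox X A B) (oa X A B) (ob A B) * 2.036 := by
      calc φ * φ ^ K ≤ (ell φ (ox X A B) (oa X A B) (ob A B) * qq φ e g) * φ ^ K := by gcongr
        _ = ell φ (ox X A B) (oa X A B) (ob A B) * (qq φ e g * φ ^ K) := by ring
        _ ≤ _ := by gcongr
    rw [pow_succ φ K, h3] at hcon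
    nlinarith
  have h100 : 4 ≤ ell φ (ox X A B) (oa X A B) (ob A B) := by
    rw [pow_succ φ K, h3] at hbigell
    by_contra hcon
    push Not at hcon
    nlinarith
  obtain ⟨k, hk1, hk2⟩ := exists_nat_pow_near (x := ell φ (ox X A B) (oa X A B) (ob A B) / 4) (y := φ)
    (by linarith) (by linarith)
  obtain ⟨q1, q2, q3⟩ := red2 h3 k _ _ _ (by linarith) (by linarith) hNpos hN2
  obtain ⟨f1, f2, f3⟩ := of_old q1 q2 q3
  refine ⟨k + 4, ?_, f1, f2, f3⟩
  rw [q1, q2, q3, ell_P h3, ← pow_add] at hbigell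
  have := (pow_lt_pow_iff_right₀ (by linarith : 1 < φ)).1 hbigell
  omega

/-- `N v ≤ N w` if and only if this holds for the squares of the sup norms. -/
def IsSup (N : ℝ × ℝ → ℝ) : Prop :=
  ∀ e g e' g' : ℝ, N (e, g) ≤ N (e', g') ↔ max (e ^ 2) (g ^ 2) ≤ max (e' ^ 2) (g' ^ 2)

theorem best_sup {N : ℝ × ℝ → ℝ} (hN : IsSup N) {k : ℕ} (hk : 42 ≤ k) (hr : ss φ k < ss φ (k - 1)) :
    BestN N (T1 φ) (T2 φ) (XX k) (AA k) (BB k) := by
  have hpos := XX_pos k (by omega)
  refine ⟨hpos.ne', fun X' A' B' h1 h2 => ?_⟩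
  rw [hN] at h2
  rw [abs_of_pos hpos] at h1
  have key : ∀ X A B : ℤ, 0 < X → X ≤ XX k →
      max ((X * T1 φ - A) ^ 2) ((X * T2 φ - B) ^ 2) ≤ ss φ k → X = XX k ∧ A = AA k ∧ B = BB k := by
    intro X A B h0 hX hq
    have hq2 : (X * T1 φ - A) ^ 2 + (X * T2 φ - B) ^ 2 ≤
        2 * ((XX k * T1 φ - AA k) ^ 2 + (XX k * T2 φ - BB k) ^ 2) := by
      have u1 := (le_max_left _ _).trans hq
      have u2 := (le_max_right _ _).trans hq
      have u3 : ss φ k ≤ (XX k * T1 φ - AA k) ^ 2 + (XX k * T2 φ - BB k) ^ 2 := by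
        unfold ss ee gg
        exact max_le (by nlinarith [sq_nonneg (XX k * T2 φ - BB k)]) (by nlinarith [sq_nonneg (XX k * T1 φ - AA k)])
      linarith
    obtain ⟨j, hj, e1, e2, e3⟩ := core2 h3 (by omega) h0 hX hq2
    have hs : ss φ j ≤ ss φ k := by
      rw [e1, e2, e3] at hq
      exact hq
    have hjk : j ≤ k := by
      by_contra hcon
      push Not at hcon
      have := XX_strict (show 8 ≤ k by omega) hcon
      omega
    rcases Nat.eq_or_lt_of_le hjk with h | h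
    · subst h; exact ⟨e1, e2, e3⟩
    · exfalso
      rcases Nat.eq_or_lt_of_le (show j ≤ k - 1 by omega) with h' | h'
      · subst h'; linarith
      · have hj2 : k = j + 2 := by omega
        have := f1 h3 j
        rw [← hj2] at this
        linarith
  change max ((X' * T1 φ - A') ^ 2) ((X' * T2 φ - B') ^ 2) ≤ ss φ k at h2
  rcases lt_trichotomy X' 0 with h | h | h
  · right; right
    rw [abs_of_neg h] at h1
    obtain ⟨e1, e2, e3⟩ := key (-X') (-A') (-B') (by omega) h1 (by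
      push_cast
      rw [show (-(X' : ℝ) * T1 φ - -(A' : ℝ)) ^ 2 = (X' * T1 φ - A') ^ 2 by ring,
        show (-(X' : ℝ) * T2 φ - -(B' : ℝ)) ^ 2 = (X' * T2 φ - B') ^ 2 by ring]
      exact h2)
    refine ⟨by omega, by omega, by omega⟩
  · left
    subst h
    obtain ⟨s1, s2⟩ := small_uv h3 (show 40 ≤ k by omega) (le_of_eq_of_le (q_u h3 k) (by norm_num))
    have t1 : ee φ k ^ 2 ≤ 0.0013 ^ 2 := by
      rw [← sq_abs]; exact pow_le_pow_left₀ (abs_nonneg _) s1.le 2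
    have t2 : gg φ k ^ 2 ≤ 0.0013 ^ 2 := by
      rw [← sq_abs]; exact pow_le_pow_left₀ (abs_nonneg _) s2.le 2
    have t3 : ss φ k ≤ 0.0013 ^ 2 := max_le t1 t2
    have u1 := (le_max_left _ _).trans (h2.trans t3)
    have u2 := (le_max_right _ _).trans (h2.trans t3)
    have v1 : (A' : ℝ) ^ 2 < 1 := by
      have : (((0 : ℤ) : ℝ) * T1 φ - A') ^ 2 = (A' : ℝ) ^ 2 := by push_cast; ring
      rw [this] at u1; norm_num at u1; linarith
    have v2 : (B' : ℝ) ^ 2 < 1 := by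
      have : (((0 : ℤ) : ℝ) * T2 φ - B') ^ 2 = (B' : ℝ) ^ 2 := by push_cast; ring
      rw [this] at u2; norm_num at u2; linarith
    have v1' : A' ^ 2 < 1 := by exact_mod_cast v1
    have v2' : B' ^ 2 < 1 := by exact_mod_cast v2
    refine ⟨rfl, ?_, ?_⟩ <;> nlinarith [sq_nonneg A', sq_nonneg B']
  · right; left
    rw [abs_of_pos h] at h1
    exact key X' A' B' h h1 h2

end

/-- Among nine consecutive indices, at most three are bad. -/
theorem nine : ∀ b : Fin 9 → Bool, (∀ i j : Fin 9, (j.val = i.val + 1 ∨ j.val = i.val + 3 ∨ j.val = i.val + 6) →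
    ¬ (b i = true ∧ b j = true)) → 6 ≤ (Finset.univ.filter fun i => b i = false).card := by
  decide +kernel

end Pool.Agent.Q3.BestPhi
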